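import Pool.Agent.H71.KInt.Kernel

set_option autoImplicit false

/-! The sharp count of kernels of given excess, by comparison with a tightest pair. -/

namespace Pool.Agent.H71.KInt

open Finset

variable {α : Type*} [DecidableEq α]

theorem level_count2 {T : Finset (Finset α × ℕ)} {m L : ℕ} (hL1 : 1 ≤ L)
    (hcross : ∀ a ∈ T, ∀ b ∈ T, a.2 + b.2 ≤ (a.1 ∩ b.1).card + m)
    (hbdd : ∀ a ∈ T, a.1.card ≤ L) (ht : Tight m T) (u l : ℕ) :
    (T.filter (fun a => a.2 = u ∧ a.1.card + m = 2 * u + l)).card ≤ (l + 1) * (4 * L) ^ l := by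
  classical
  by_cases hne : (T.filter (fun a => a.2 = u ∧ a.1.card + m = 2 * u + l)).Nonempty
  swap
  · rw [not_nonempty_iff_eq_empty.1 hne]; simp
  set Tl := T.filter (fun a => a.1.card + m ≤ 2 * a.2 + l) with hTl
  have hTlne : (Tl ×ˢ Tl).Nonempty := by
    obtain ⟨a, ha⟩ := hne
    rw [mem_filter] at ha
    have : a ∈ Tl := by
      rw [hTl, mem_filter]; exact ⟨ha.1, by omega⟩
    exact ⟨(a, a), mem_product.2 ⟨this, this⟩⟩
  obtain ⟨q, hq, hqmin⟩ := exists_min_image (Tl ×ˢ Tl)
    (fun q => (q.1.1 ∩ q.2.1).card + m - q.1.2 - q.2.2) hTlne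
  obtain ⟨p, b⟩ := q
  rw [mem_product] at hq
  obtain ⟨hpl, hbl⟩ := hq
  simp only at hpl hbl hqmin
  have hp : p ∈ T := (mem_filter.1 hpl).1
  have hb : b ∈ T := (mem_filter.1 hbl).1
  have hpe : p.1.card + m ≤ 2 * p.2 + l := (mem_filter.1 hpl).2
  have hbe : b.1.card + m ≤ 2 * b.2 + l := (mem_filter.1 hbl).2
  have hpb := hcross p hp b hb
  obtain ⟨w, hw⟩ : ∃ w, (p.1 ∩ b.1).card + m = p.2 + b.2 + w :=
    ⟨(p.1 ∩ b.1).card + m - p.2 - b.2, by omega⟩
  have hslack : ∀ a ∈ T, a.1.card + m ≤ 2 * a.2 + l → ∀ c ∈ Tl, c ∈ T →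
      a.2 + c.2 + w ≤ (a.1 ∩ c.1).card + m := by
    intro a ha hae c hc hcT
    have h1 : a ∈ Tl := by rw [hTl, mem_filter]; exact ⟨ha, hae⟩
    have h2 := hqmin (a, c) (mem_product.2 ⟨h1, hc⟩)
    simp only at h2
    have h3 := hcross a ha c hcT
    omega
  set I := p.1 ∩ b.1 with hI
  set U := p.1 ∪ b.1 with hU
  have hIU : I ⊆ U := inter_subset_left.trans subset_union_left
  -- the parameters of a kernel of the class
  have hpar : ∀ a ∈ T, a.2 = u → a.1.card + m = 2 * u + l →
      (I \ a.1).card + (a.1.card - (a.1 ∩ U).card) ≤ l := by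
    intro a ha hau hal
    have h1 := hslack a ha (by omega) p hpl hp
    have h2 := hslack a ha (by omega) b hbl hb
    have h3 : (a.1 ∩ U).card + (a.1 ∩ I).card = (a.1 ∩ p.1).card + (a.1 ∩ b.1).card := by
      have e1 : a.1 ∩ U = (a.1 ∩ p.1) ∪ (a.1 ∩ b.1) := by rw [hU, inter_union_distrib_left]
      have e2 : a.1 ∩ I = (a.1 ∩ p.1) ∩ (a.1 ∩ b.1) := by
        rw [hI]; ext x; simp only [mem_inter]; tauto
      rw [e1, e2, card_union_add_card_inter]
    have h4 : (I \ a.1).card + (a.1 ∩ I).card = I.card := by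
      rw [inter_comm, card_sdiff_add_card_inter]
    have h5 : (a.1 ∩ U).card ≤ a.1.card := card_le_card inter_subset_left
    omega
  set F : Finset α → Finset α → Finset (Finset α × ℕ) := fun J K =>
    T.filter (fun a => a.2 = u ∧ a.1.card + m = 2 * u + l ∧ I \ a.1 = J ∧ a.1 ∩ (U \ I) = K) with hF
  have hFcard : ∀ J K, (F J K).card ≤ L ^ (l - J.card) := by
    intro J K
    by_cases hFne : (F J K).Nonempty
    swap
    · rw [not_nonempty_iff_eq_empty.1 hFne]; simp
    obtain ⟨a0, ha0⟩ := hFne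
    rw [hF] at ha0
    simp only [mem_filter] at ha0
    obtain ⟨ha0T, ha01, ha02, ha03, ha04⟩ := ha0
    set B := (I \ J) ∪ K with hB
    have hBa : ∀ a : Finset α × ℕ, I \ a.1 = J → a.1 ∩ (U \ I) = K → B = a.1 ∩ U := by
      intro a h1 h2
      rw [hB, ← h1, ← h2]
      ext x
      simp only [mem_union, mem_sdiff, mem_inter, not_and, not_not]
      constructor
      · rintro (⟨h3, h4⟩ | ⟨h3, h4, h5⟩)
        · exact ⟨h4 h3, hIU h3⟩
        · exact ⟨h3, h4⟩
      · rintro ⟨h3, h4⟩
        by_cases h5 : x ∈ I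
        · exact Or.inl ⟨h5, fun _ => h3⟩
        · exact Or.inr ⟨h3, h4, h5⟩
    have hB0 := hBa a0 ha03 ha04
    have hBle : B.card ≤ a0.1.card := by rw [hB0]; exact card_le_card inter_subset_left
    have hp0 := hpar a0 ha0T ha01 ha02
    rw [ha03, ← hB0] at hp0
    refine le_trans (le_trans (card_le_card ?_) (branch hcross hbdd ht u (a0.1.card - B.card) B)) ?_
    · intro a ha
      rw [hF] at ha
      simp only [mem_filter] at ha ⊢
      obtain ⟨haT, ha1, ha2, ha3, ha4⟩ := ha
      refine ⟨haT, ha1, ?_, by omega⟩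
      rw [hBa a ha3 ha4]
      exact inter_subset_left
    · exact Nat.pow_le_pow_right hL1 (by omega)
  have hcov : T.filter (fun a => a.2 = u ∧ a.1.card + m = 2 * u + l) ⊆
      (range (l + 1)).biUnion (fun j => (I.powersetCard j).biUnion (fun J =>
        (U \ I).powerset.biUnion (fun K => F J K))) := by
    intro a ha
    rw [mem_filter] at ha
    obtain ⟨haT, ha1, ha2⟩ := ha
    have h1 := hpar a haT ha1 ha2
    rw [mem_biUnion]
    refine ⟨(I \ a.1).card, mem_range.2 (by omega), ?_⟩
    rw [mem_biUnion]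
    refine ⟨I \ a.1, mem_powersetCard.2 ⟨sdiff_subset, rfl⟩, ?_⟩
    rw [mem_biUnion]
    refine ⟨a.1 ∩ (U \ I), mem_powerset.2 inter_subset_right, ?_⟩
    exact mem_filter.2 ⟨haT, ha1, ha2, rfl, rfl⟩
  have hUI : (U \ I).card ≤ 2 * l := by
    have h1 : (U \ I).card + I.card = U.card := by
      rw [card_sdiff_of_subset hIU]
      have := card_le_card hIU
      omega
    have h2 : U.card + I.card = p.1.card + b.1.card := card_union_add_card_inter _ _
    omega
  have hIL : I.card ≤ L := (card_le_card inter_subset_left).trans (hbdd p hp)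
  calc (T.filter (fun a => a.2 = u ∧ a.1.card + m = 2 * u + l)).card ≤ _ := card_le_card hcov
    _ ≤ (range (l + 1)).card * ((4 * L) ^ l) := by
        refine card_biUnion_le_card_mul _ _ _ (fun j hj => ?_)
        have hjl : j ≤ l := by rw [mem_range] at hj; omega
        have hstep : ((I.powersetCard j).biUnion (fun J =>
            (U \ I).powerset.biUnion (fun K => F J K))).card ≤
            (I.powersetCard j).card * ((U \ I).powerset.card * L ^ (l - j)) := by
          refine card_biUnion_le_card_mul _ _ _ (fun J hJ => ?_)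
          refine card_biUnion_le_card_mul _ _ _ (fun K _ => ?_)
          have := hFcard J K
          rwa [(mem_powersetCard.1 hJ).2] at this
        refine hstep.trans ?_
        rw [card_powersetCard, card_powerset]
        calc I.card.choose j * (2 ^ (U \ I).card * L ^ (l - j))
            ≤ L ^ j * (2 ^ (2 * l) * L ^ (l - j)) := by
              gcongr
              · exact (Nat.choose_le_pow _ _).trans (Nat.pow_le_pow_left hIL _)
              · norm_num
          _ = 2 ^ (2 * l) * (L ^ j * L ^ (l - j)) := by ring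
          _ = (4 * L) ^ l := by
              rw [← pow_add, show j + (l - j) = l by omega, pow_mul, mul_pow]; norm_num
    _ = (l + 1) * (4 * L) ^ l := by rw [card_range]

/-- All kernels of excess `l`. -/
theorem excess_count {T : Finset (Finset α × ℕ)} {m L : ℕ} (hL1 : 1 ≤ L)
    (hcross : ∀ a ∈ T, ∀ b ∈ T, a.2 + b.2 ≤ (a.1 ∩ b.1).card + m)
    (hbdd : ∀ a ∈ T, a.1.card ≤ L) (ht : Tight m T) (l : ℕ) :
    (T.filter (fun a => a.1.card + m = 2 * a.2 + l)).card ≤ (l + 1) ^ 2 * (4 * L) ^ l := by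
  classical
  by_cases hne : (T.filter (fun a => a.1.card + m = 2 * a.2 + l)).Nonempty
  swap
  · rw [not_nonempty_iff_eq_empty.1 hne]; simp
  obtain ⟨a0, ha0, hmin⟩ := exists_min_image _ (fun a => a.2) hne
  rw [mem_filter] at ha0
  have hsub : T.filter (fun a => a.1.card + m = 2 * a.2 + l) ⊆
      (range (l + 1)).biUnion (fun i => T.filter (fun a => a.2 = a0.2 + i ∧
        a.1.card + m = 2 * (a0.2 + i) + l)) := by
    intro a ha
    have h1 := hmin a ha
    rw [mem_filter] at ha
    have h2 := hcross a ha.1 a0 ha0.1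
    have h3 : (a.1 ∩ a0.1).card ≤ a0.1.card := card_le_card inter_subset_right
    rw [mem_biUnion]
    refine ⟨a.2 - a0.2, mem_range.2 (by omega), ?_⟩
    rw [mem_filter]
    exact ⟨ha.1, by omega, by omega⟩
  refine (card_le_card hsub).trans ((card_biUnion_le_card_mul _ _ ((l + 1) * (4 * L) ^ l)
    (fun i _ => level_count2 hL1 hcross hbdd ht _ _)).trans ?_)
  rw [card_range]
  apply le_of_eq
  ring

end Pool.Agent.H71.KInt
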