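import Mathlib

set_option autoImplicit false

/-! Permutations, distance and features (support points and moved pairs). -/

namespace Pool.Agent.H71.KInt

open Finset Equiv

variable {n : ℕ}

/-- Number of points where two permutations differ. -/
def pdist (σ τ : Perm (Fin n)) : ℕ := (univ.filter (fun x => σ x ≠ τ x)).card

/-- Features: the moved points and the moved pairs. -/
def feat (τ : Perm (Fin n)) : Finset (Fin n ⊕ Fin n × Fin n) :=
  τ.support.disjSum (τ.support.image (fun x => (x, τ x)))

lemma inl_mem_feat {τ : Perm (Fin n)} {x : Fin n} : Sum.inl x ∈ feat τ ↔ τ x ≠ x := by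
  simp [feat]

lemma inr_mem_feat {τ : Perm (Fin n)} {x y : Fin n} :
    Sum.inr (x, y) ∈ feat τ ↔ τ x ≠ x ∧ τ x = y := by
  simp [feat]

lemma card_feat (τ : Perm (Fin n)) : (feat τ).card = 2 * τ.support.card := by
  rw [feat, card_disjSum, card_image_of_injective]
  · ring
  · intro a b h
    simpa using congrArg Prod.fst h

lemma feat_inter_card (σ τ : Perm (Fin n)) :
    (feat σ ∩ feat τ).card = (univ.filter (fun x => σ x ≠ x ∧ τ x ≠ x)).card
      + (univ.filter (fun x => σ x ≠ x ∧ σ x = τ x)).card := by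
  have h : feat σ ∩ feat τ = (univ.filter (fun x => σ x ≠ x ∧ τ x ≠ x)).disjSum
      ((univ.filter (fun x => σ x ≠ x ∧ σ x = τ x)).image (fun x => (x, σ x))) := by
    ext f
    rcases f with x | ⟨x, y⟩
    · simp [inl_mem_feat]
    · simp only [mem_inter, inr_mem_feat, inr_mem_disjSum, mem_image, mem_filter, mem_univ,
        true_and, Prod.mk.injEq]
      constructor
      · rintro ⟨⟨h1, h2⟩, h3, h4⟩
        exact ⟨x, ⟨h1, by rw [h2, h4]⟩, rfl, h2⟩
      · rintro ⟨z, ⟨h1, h2⟩, rfl, h3⟩
        refine ⟨⟨h1, h3⟩, ?_, ?_⟩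
        · rw [← h2]; exact h1
        · rw [← h2]; exact h3
  rw [h, card_disjSum, card_image_of_injective]
  intro a b h
  simpa using congrArg Prod.fst h

/-- The basic identity. -/
lemma pdist_add_inter (σ τ : Perm (Fin n)) :
    pdist σ τ + (feat σ ∩ feat τ).card = σ.support.card + τ.support.card := by
  rw [feat_inter_card, pdist, show σ.support = univ.filter (fun x => σ x ≠ x) by ext; simp,
    show τ.support = univ.filter (fun x => τ x ≠ x) by ext; simp]
  simp only [card_filter, ← sum_add_distrib]
  refine sum_congr rfl (fun x _ => ?_)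
  by_cases h1 : σ x = x <;> by_cases h2 : τ x = x
  · simp [h1, h2]
  · have : ¬ (x = τ x) := fun h => h2 h.symm
    simp [h1, h2, this]
  · simp [h1, h2]
  · by_cases h3 : σ x = τ x
    · simp [h2, h3]
    · simp [h1, h2, h3]

lemma pdist_comm (σ τ : Perm (Fin n)) : pdist σ τ = pdist τ σ := by
  unfold pdist; congr 1; ext x; simp [eq_comm]

lemma pdist_one (τ : Perm (Fin n)) : pdist τ 1 = τ.support.card := by
  unfold pdist; congr 1

lemma pdist_mul_left (ρ σ τ : Perm (Fin n)) : pdist (ρ * σ) (ρ * τ) = pdist σ τ := by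
  unfold pdist; congr 1; ext x; simp

lemma pdist_triangle (σ τ ρ : Perm (Fin n)) : pdist σ ρ ≤ pdist σ τ + pdist τ ρ := by
  unfold pdist
  refine le_trans (card_le_card ?_) (card_union_le _ _)
  intro x hx
  simp only [mem_filter, mem_univ, true_and, mem_union] at hx ⊢
  by_contra h
  push Not at h
  exact hx (h.1.trans h.2)

lemma pdist_eq_zero {σ τ : Perm (Fin n)} (h : pdist σ τ = 0) : σ = τ := by
  ext x
  unfold pdist at h
  rw [card_eq_zero, filter_eq_empty_iff] at h
  have := h (mem_univ x)
  push Not at this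
  rw [this]

/-- Two permutations never differ in exactly one point. -/
lemma pdist_ne_one (σ τ : Perm (Fin n)) : pdist σ τ ≠ 1 := by
  intro h
  have h2 : pdist (τ⁻¹ * σ) 1 = 1 := by
    rw [← h, ← pdist_mul_left τ⁻¹ σ τ]; simp
  rw [pdist_one] at h2
  exact Perm.card_support_ne_one _ h2

lemma pdist_le_one {σ τ : Perm (Fin n)} (h : pdist σ τ ≤ 1) : σ = τ := by
  have := pdist_ne_one σ τ
  exact pdist_eq_zero (by omega)

/-- agreement count -/
lemma agree_add_pdist (σ τ : Perm (Fin n)) :
    (univ.filter (fun x => σ x = τ x)).card + pdist σ τ = n := by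
  unfold pdist
  rw [card_filter_add_card_filter_not]
  simp

end Pool.Agent.H71.KInt
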