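import Pool.Agent.H71.KInt.Count

set_option autoImplicit false

/-! Shape of a kernel: its domain `Qd`, its points `Qp`, its closure `Qz`, and centres. -/

namespace Pool.Agent.H71.KInt

open Finset Equiv
open scoped Nat

variable {n : ℕ}

def Qd (Q : Finset (Fin n ⊕ Fin n × Fin n)) : Finset (Fin n) :=
  univ.filter (fun x => ∃ y, Sum.inr (x, y) ∈ Q)

def Qp (Q : Finset (Fin n ⊕ Fin n × Fin n)) : Finset (Fin n) :=
  univ.filter (fun x => Sum.inl x ∈ Q)

def Qz (Q : Finset (Fin n ⊕ Fin n × Fin n)) (τ₀ : Perm (Fin n)) : Finset (Fin n) :=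
  Qp Q ∪ Qd Q ∪ (Qd Q).image τ₀

lemma Qd_subset_Qz (Q : Finset (Fin n ⊕ Fin n × Fin n)) (τ₀ : Perm (Fin n)) :
    Qd Q ⊆ Qz Q τ₀ :=
  subset_union_right.trans subset_union_left

lemma Qp_subset_Qz (Q : Finset (Fin n ⊕ Fin n × Fin n)) (τ₀ : Perm (Fin n)) :
    Qp Q ⊆ Qz Q τ₀ :=
  subset_union_left.trans subset_union_left

lemma image_subset_Qz (Q : Finset (Fin n ⊕ Fin n × Fin n)) (τ₀ : Perm (Fin n)) :
    (Qd Q).image τ₀ ⊆ Qz Q τ₀ :=
  subset_union_right

lemma mem_Qd_of_inr {Q : Finset (Fin n ⊕ Fin n × Fin n)} {x y : Fin n}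
    (h : Sum.inr (x, y) ∈ Q) : x ∈ Qd Q := by
  simp only [Qd, mem_filter, mem_univ, true_and]; exact ⟨y, h⟩

lemma inr_mem_of_mem_Qd {Q : Finset (Fin n ⊕ Fin n × Fin n)} {τ : Perm (Fin n)}
    (hQ : Q ⊆ feat τ) {x : Fin n} (hx : x ∈ Qd Q) : Sum.inr (x, τ x) ∈ Q := by
  simp only [Qd, mem_filter, mem_univ, true_and] at hx
  obtain ⟨y, hy⟩ := hx
  have := (inr_mem_feat.1 (hQ hy)).2
  rwa [this]

lemma card_Q {Q : Finset (Fin n ⊕ Fin n × Fin n)} {τ : Perm (Fin n)} (hQ : Q ⊆ feat τ) :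
    Q.card = (Qp Q).card + (Qd Q).card := by
  have h : Q = (Qp Q).disjSum ((Qd Q).image (fun x => (x, τ x))) := by
    ext f
    rcases f with x | ⟨x, y⟩
    · simp [Qp]
    · simp only [inr_mem_disjSum, mem_image, Prod.mk.injEq]
      constructor
      · intro h
        exact ⟨x, mem_Qd_of_inr h, rfl, (inr_mem_feat.1 (hQ h)).2⟩
      · rintro ⟨z, hz, rfl, rfl⟩
        exact inr_mem_of_mem_Qd hQ hz
  conv_lhs => rw [h]
  rw [card_disjSum, card_image_of_injective]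
  intro a b h
  simpa using congrArg Prod.fst h

lemma card_Q_le {Q : Finset (Fin n ⊕ Fin n × Fin n)} {τ : Perm (Fin n)} (hQ : Q ⊆ feat τ) :
    Q.card ≤ (Qz Q τ).card + (Qd Q).card := by
  rw [card_Q hQ]
  have := card_le_card (Qp_subset_Qz Q τ)
  omega

lemma eq_on_Qd {Q : Finset (Fin n ⊕ Fin n × Fin n)} {σ τ : Perm (Fin n)}
    (hσ : Q ⊆ feat σ) (hτ : Q ⊆ feat τ) {x : Fin n} (hx : x ∈ Qd Q) : σ x = τ x :=
  (inr_mem_feat.1 (hσ (inr_mem_of_mem_Qd hτ hx))).2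

lemma Qz_congr {Q : Finset (Fin n ⊕ Fin n × Fin n)} {σ τ : Perm (Fin n)}
    (hσ : Q ⊆ feat σ) (hτ : Q ⊆ feat τ) : Qz Q σ = Qz Q τ := by
  unfold Qz
  congr 1
  exact image_congr (fun x hx => eq_on_Qd hσ hτ hx)

lemma Qz_subset_support {Q : Finset (Fin n ⊕ Fin n × Fin n)} {τ : Perm (Fin n)}
    (hτ : Q ⊆ feat τ) : Qz Q τ ⊆ τ.support := by
  intro x hx
  simp only [Qz, mem_union, mem_image] at hx
  rw [Perm.mem_support]
  rcases hx with (hx | hx) | ⟨y, hy, rfl⟩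
  · simp only [Qp, mem_filter, mem_univ, true_and] at hx
    exact inl_mem_feat.1 (hτ hx)
  · exact (inr_mem_feat.1 (hτ (inr_mem_of_mem_Qd hτ hx))).1
  · have := (inr_mem_feat.1 (hτ (inr_mem_of_mem_Qd hτ hy))).1
    intro h
    exact this (τ.injective h)

/-- Arithmetic of the counting bound. -/
lemma choose_mul_factorial_le (N a δ : ℕ) : N.choose a * (a + δ)! ≤ N ^ a * (a + δ) ^ δ := by
  have h1 : (a + δ)! ≤ a ! * (a + δ) ^ δ := by
    rw [← Nat.factorial_mul_ascFactorial]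
    gcongr
    exact Nat.ascFactorial_le_pow_add a δ
  calc N.choose a * (a + δ)! ≤ N.choose a * (a ! * (a + δ) ^ δ) := by gcongr
    _ = (a ! * N.choose a) * (a + δ) ^ δ := by ring
    _ = N.descFactorial a * (a + δ) ^ δ := by rw [Nat.descFactorial_eq_factorial_mul_choose]
    _ ≤ N ^ a * (a + δ) ^ δ := by
        gcongr
        exact Nat.descFactorial_le_pow N a

/-- Number of permutations of level `u` above a kernel. -/
lemma card_kernel_le {Q : Finset (Fin n ⊕ Fin n × Fin n)} {τ : Perm (Fin n)} {u : ℕ}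
    (hu : τ.support.card = u) (hτ : Q ⊆ feat τ) :
    (univ.filter (fun σ : Perm (Fin n) => σ.support.card = u ∧ Q ⊆ feat σ)).card
      ≤ n ^ (u - (Qz Q τ).card) * u ^ ((Qz Q τ).card - (Qd Q).card) := by
  classical
  have hz : (Qz Q τ).card ≤ u := hu ▸ card_le_card (Qz_subset_support hτ)
  have hd : (Qd Q).card ≤ (Qz Q τ).card := card_le_card (Qd_subset_Qz Q τ)
  have hsub : univ.filter (fun σ : Perm (Fin n) => σ.support.card = u ∧ Q ⊆ feat σ) ⊆
      univ.filter (fun σ : Perm (Fin n) => σ.support.card = u ∧ Qz Q τ ⊆ σ.support ∧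
        ∀ x ∈ Qd Q, σ x = τ x) := by
    intro σ hσ
    simp only [mem_filter, mem_univ, true_and] at hσ ⊢
    refine ⟨hσ.1, ?_, fun x hx => eq_on_Qd hσ.2 hτ hx⟩
    rw [← Qz_congr hσ.2 hτ]
    exact Qz_subset_support hσ.2
  refine (card_le_card hsub).trans ((card_ext_le _ _ (Qd_subset_Qz Q τ) _ u).trans ?_)
  have e1 : u - (Qd Q).card = (u - (Qz Q τ).card) + ((Qz Q τ).card - (Qd Q).card) := by omega
  rw [e1]
  refine (choose_mul_factorial_le _ _ _).trans ?_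
  gcongr
  · omega
  · omega

/-- A permutation equal to `τ₀` on the invariant set `Z` and to the identity elsewhere. -/
lemma exists_center (Z : Finset (Fin n)) (τ₀ : Perm (Fin n)) (h : ∀ x ∈ Z, τ₀ x ∈ Z) :
    ∃ c : Perm (Fin n), (∀ x ∈ Z, c x = τ₀ x) ∧ ∀ x, x ∉ Z → c x = x := by
  classical
  have himg : Z.image τ₀ = Z := by
    apply eq_of_subset_of_card_le
    · intro y hy
      obtain ⟨x, hx, rfl⟩ := mem_image.1 hy
      exact h x hx
    · rw [card_image_of_injective _ τ₀.injective]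
  have hiff : ∀ x, τ₀ x ∈ Z ↔ x ∈ Z := by
    intro x
    constructor
    · intro hx
      rw [← himg] at hx
      obtain ⟨y, hy, hyx⟩ := mem_image.1 hx
      rwa [← τ₀.injective hyx]
    · exact h x
  refine ⟨Perm.ofSubtype (τ₀.subtypePerm (p := fun x => x ∈ Z) (fun x => hiff x)), ?_, ?_⟩
  · intro x hx
    rw [Perm.ofSubtype_apply_of_mem _ hx]
    rfl
  · intro x hx
    exact Perm.ofSubtype_apply_of_not_mem _ hx

/-- Completing a partial permutation with one missing point. -/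
lemma exists_center' (Z D : Finset (Fin n)) (τ₀ : Perm (Fin n)) (hD : D ⊆ Z)
    (hcard : Z.card = D.card + 1) (h : ∀ x ∈ D, τ₀ x ∈ Z) :
    ∃ z ∈ Z, z ∉ D ∧ (∀ x ∈ Z, x ≠ z → x ∈ D) ∧ ∃ c : Perm (Fin n),
      (∀ x ∈ D, c x = τ₀ x) ∧ (∀ x, x ∉ Z → c x = x) := by
  classical
  have h1 : (Z \ D).card = 1 := by rw [card_sdiff_of_subset hD]; omega
  obtain ⟨z, hz⟩ := card_eq_one.1 h1
  have hzm : z ∈ Z \ D := by rw [hz]; exact mem_singleton_self z
  rw [mem_sdiff] at hzm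
  have hsub : D.image τ₀ ⊆ Z := by
    intro y hy
    obtain ⟨x, hx, rfl⟩ := mem_image.1 hy
    exact h x hx
  have h2 : (Z \ D.image τ₀).card = 1 := by
    rw [card_sdiff_of_subset hsub, card_image_of_injective _ τ₀.injective]; omega
  obtain ⟨z', hz'⟩ := card_eq_one.1 h2
  have hz'm : z' ∈ Z \ D.image τ₀ := by rw [hz']; exact mem_singleton_self z'
  rw [mem_sdiff] at hz'm
  have hother : ∀ x ∈ Z, x ≠ z → x ∈ D := by
    intro x hx hxz
    by_contra hxD
    have : x ∈ Z \ D := mem_sdiff.2 ⟨hx, hxD⟩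
    rw [hz, mem_singleton] at this
    exact hxz this
  refine ⟨z, hzm.1, hzm.2, hother, ?_⟩
  have hD1 : ∀ x ∈ D, (swap (τ₀ z) z' * τ₀) x = τ₀ x := by
    intro x hx
    rw [Perm.mul_apply, swap_apply_of_ne_of_ne]
    · intro e
      exact hzm.2 (τ₀.injective e ▸ hx)
    · intro e
      exact hz'm.2 (mem_image.2 ⟨x, hx, e⟩)
  obtain ⟨c, hc1, hc2⟩ := exists_center Z (swap (τ₀ z) z' * τ₀) (by
    intro x hx
    by_cases hxz : x = z
    · subst hxz
      rw [Perm.mul_apply, swap_apply_left]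
      exact hz'm.1
    · rw [hD1 x (hother x hx hxz)]
      exact h x (hother x hx hxz))
  exact ⟨c, fun x hx => (hc1 x (hD hx)).trans (hD1 x hx), hc2⟩

end Pool.Agent.H71.KInt
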