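import Pool.Agent.H71.KInt.Pair
import Pool.Agent.H71.KInt.Shape

set_option autoImplicit false

/-! The core structure theorem: a family of bounded diameter lives, up to few elements,
on one sphere (and one punctured sphere if the diameter is odd). -/

namespace Pool.Agent.H71.KInt

open Finset Equiv
open scoped Nat

variable {n : ℕ}

/-- The error unit. -/
def D1 (n m r e : ℕ) : ℕ := m ^ (e + 2) * n ^ (r - 1)

lemma sq_le_two_pow (i : ℕ) : (i + 4) ^ 2 ≤ 16 * 2 ^ i := by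
  induction i with
  | zero => norm_num
  | succ i ih =>
    have h1 : (i + 1 + 4) ^ 2 ≤ 2 * (i + 4) ^ 2 := by
      have e1 : (i + 1 + 4) ^ 2 = i ^ 2 + 10 * i + 25 := by ring
      have e2 : 2 * (i + 4) ^ 2 = 2 * i ^ 2 + 16 * i + 32 := by ring
      rw [e1, e2]
      omega
    calc (i + 1 + 4) ^ 2 ≤ 2 * (i + 4) ^ 2 := h1
      _ ≤ 2 * (16 * 2 ^ i) := by gcongr
      _ = 16 * 2 ^ (i + 1) := by ring

lemma nonmain_arith {n m r e a δ l u : ℕ} (hm : m = 2 * r + e) (he : e ≤ 1) (hr : 1 ≤ r)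
    (hu : u ≤ m) (h : 2 * a + δ + l ≤ m) (ha : a ≠ r) (hn : (500 * m) ^ 2 ≤ n) :
    (l + 1) ^ 2 * (4 * (2 * m)) ^ l * (n ^ a * u ^ δ) ≤ (l + 1) ^ 2 * 8 ^ l * D1 n m r e ∧
      (∀ i, l = 3 + i → 31 ^ i * ((l + 1) ^ 2 * (4 * (2 * m)) ^ l * (n ^ a * u ^ δ)) ≤
        8192 * D1 n m r e) := by
  obtain ⟨b, hb⟩ : ∃ b, r - 1 = a + b := ⟨r - 1 - a, by omega⟩
  have hm1 : 1 ≤ m := by omega
  have hδ : δ + l ≤ e + 2 + 2 * b := by omega
  have h1 : u ^ δ ≤ m ^ (e + 2 + 2 * b - l) :=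
    (Nat.pow_le_pow_left hu δ).trans (Nat.pow_le_pow_right hm1 (by omega))
  have h2 : (l + 1) ^ 2 * (4 * (2 * m)) ^ l * (n ^ a * u ^ δ) ≤
      (l + 1) ^ 2 * 8 ^ l * (m ^ (e + 2) * (n ^ a * (m ^ 2) ^ b)) := by
    have e1 : (4 * (2 * m)) ^ l = 8 ^ l * m ^ l := by
      rw [show 4 * (2 * m) = 8 * m by ring, mul_pow]
    have e2 : m ^ l * m ^ (e + 2 + 2 * b - l) = m ^ (e + 2) * (m ^ 2) ^ b := by
      rw [← pow_add, ← pow_mul, ← pow_add]; congr 1; omega
    calc (l + 1) ^ 2 * (4 * (2 * m)) ^ l * (n ^ a * u ^ δ)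
        ≤ (l + 1) ^ 2 * (4 * (2 * m)) ^ l * (n ^ a * m ^ (e + 2 + 2 * b - l)) := by gcongr
      _ = (l + 1) ^ 2 * 8 ^ l * (n ^ a * (m ^ l * m ^ (e + 2 + 2 * b - l))) := by rw [e1]; ring
      _ = (l + 1) ^ 2 * 8 ^ l * (m ^ (e + 2) * (n ^ a * (m ^ 2) ^ b)) := by rw [e2]; ring
  have h3 : D1 n m r e = m ^ (e + 2) * (n ^ a * n ^ b) := by
    unfold D1; rw [hb, pow_add n a b]
  have hn2 : 250000 * m ^ 2 ≤ n := by
    refine le_trans (le_of_eq ?_) hn; ring
  constructor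
  · rw [h3]
    refine h2.trans ?_
    have : m ^ 2 ≤ n := by omega
    gcongr
  · intro i hi
    rw [h3]
    have hib : i ≤ 2 * b := by omega
    have h4 : 31 ^ i * ((l + 1) ^ 2 * 8 ^ l) ≤ 8192 * 250000 ^ b := by
      have e3 : (l + 1) ^ 2 ≤ 16 * 2 ^ i := by
        rw [hi, show 3 + i + 1 = i + 4 by ring]; exact sq_le_two_pow i
      have e4 : (8 : ℕ) ^ l = 512 * 8 ^ i := by rw [hi, pow_add]; norm_num
      calc 31 ^ i * ((l + 1) ^ 2 * 8 ^ l) ≤ 31 ^ i * ((16 * 2 ^ i) * (512 * 8 ^ i)) := by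
            rw [e4]; gcongr
        _ = 8192 * (31 * 2 * 8) ^ i := by rw [mul_pow, mul_pow]; ring
        _ ≤ 8192 * 500 ^ i := by gcongr; norm_num
        _ ≤ 8192 * 500 ^ (2 * b) := by gcongr; norm_num
        _ = 8192 * 250000 ^ b := by rw [pow_mul]; norm_num
    calc 31 ^ i * ((l + 1) ^ 2 * (4 * (2 * m)) ^ l * (n ^ a * u ^ δ))
        ≤ 31 ^ i * ((l + 1) ^ 2 * 8 ^ l * (m ^ (e + 2) * (n ^ a * (m ^ 2) ^ b))) := by gcongr
      _ = (31 ^ i * ((l + 1) ^ 2 * 8 ^ l)) * (m ^ (e + 2) * (n ^ a * (m ^ 2) ^ b)) := by ring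
      _ ≤ (8192 * 250000 ^ b) * (m ^ (e + 2) * (n ^ a * (m ^ 2) ^ b)) := by gcongr
      _ = 8192 * (m ^ (e + 2) * (n ^ a * (250000 * m ^ 2) ^ b)) := by rw [mul_pow]; ring
      _ ≤ 8192 * (m ^ (e + 2) * (n ^ a * n ^ b)) := by gcongr

/-- A main pair: the closure of the kernel `Q` leaves exactly `r` further moved points. -/
def Main (r : ℕ) (Q : Finset (Fin n ⊕ Fin n × Fin n)) (τ : Perm (Fin n)) : Prop :=
  Q ⊆ feat τ ∧ τ.support.card = (Qz Q τ).card + r

/-- Points other than `z` where `τ` and `c` differ. -/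
def offcard (c : Perm (Fin n)) (z : Fin n) (τ : Perm (Fin n)) : ℕ :=
  (univ.filter (fun x => x ≠ z ∧ τ x ≠ c x)).card

/-- sizes -/
lemma kernel_ineq {m l : ℕ} {Q : Finset (Fin n ⊕ Fin n × Fin n)} {τ : Perm (Fin n)}
    (hQ : Q ⊆ feat τ) (hl : Q.card + m = 2 * τ.support.card + l) :
    2 * (τ.support.card - (Qz Q τ).card) + ((Qz Q τ).card - (Qd Q).card) + l ≤ m := by
  have h1 := card_Q_le hQ
  have h2 := card_le_card (Qz_subset_support hQ)
  have h3 := card_le_card (Qd_subset_Qz Q τ)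
  omega

/-- the distance to a centre supported on `Z ⊆ supp τ` and agreeing with `τ` on `Z` -/
lemma pdist_center {τ c : Perm (Fin n)} {Z : Finset (Fin n)} (hZ : Z ⊆ τ.support)
    (h1 : ∀ x ∈ Z, c x = τ x) (h2 : ∀ x, x ∉ Z → c x = x) :
    pdist τ c = τ.support.card - Z.card := by
  classical
  rw [← card_sdiff_of_subset hZ]
  unfold pdist
  congr 1
  ext x
  simp only [mem_filter, mem_univ, true_and, mem_sdiff, Perm.mem_support]
  by_cases hx : x ∈ Z
  · simp [h1 x hx, hx]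
  · simp [h2 x hx, hx]

lemma support_center {τ c : Perm (Fin n)} {Z : Finset (Fin n)} (hZ : Z ⊆ τ.support)
    (h1 : ∀ x ∈ Z, c x = τ x) (h2 : ∀ x, x ∉ Z → c x = x) : c.support = Z := by
  ext x
  rw [Perm.mem_support]
  by_cases hx : x ∈ Z
  · simp only [hx, iff_true]
    rw [h1 x hx]
    exact Perm.mem_support.1 (hZ hx)
  · simp [h2 x hx, hx]

/-- Centre of a main pair with `Qz = Qd`. -/
lemma center_A {r : ℕ} {Q : Finset (Fin n ⊕ Fin n × Fin n)} {τ : Perm (Fin n)}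
    (hM : Main r Q τ) (hδ : (Qz Q τ).card = (Qd Q).card) :
    ∃ c : Perm (Fin n), pdist τ c = r ∧ Q ⊆ feat c ∧ c.support.card + r = τ.support.card := by
  classical
  have hQ := hM.1
  have hz : Qd Q = Qz Q τ := eq_of_subset_of_card_le (Qd_subset_Qz Q τ) hδ.le
  obtain ⟨c, hc1, hc2⟩ := exists_center (Qz Q τ) τ (by
    intro x hx
    rw [← hz] at hx
    exact image_subset_Qz Q τ (mem_image_of_mem _ hx))
  have hsupp := support_center (Qz_subset_support hQ) hc1 hc2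
  refine ⟨c, ?_, ?_, ?_⟩
  · rw [pdist_center (Qz_subset_support hQ) hc1 hc2, hM.2]; omega
  · intro f hf
    rcases f with x | ⟨x, y⟩
    · rw [inl_mem_feat, ← Perm.mem_support, hsupp]
      exact Qp_subset_Qz Q τ (by simp only [Qp, mem_filter, mem_univ, true_and]; exact hf)
    · have hx := mem_Qd_of_inr hf
      have hxz := Qd_subset_Qz Q τ hx
      rw [inr_mem_feat]
      refine ⟨?_, ?_⟩
      · rw [← Perm.mem_support, hsupp]; exact hxz
      · rw [hc1 x hxz]; exact (inr_mem_feat.1 (hQ hf)).2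
  · rw [hsupp, hM.2]

/-- Centre of a main pair with one point missing. -/
lemma center_B {r : ℕ} {Q : Finset (Fin n ⊕ Fin n × Fin n)} {τ : Perm (Fin n)}
    (hM : Main r Q τ) (hδ : (Qz Q τ).card = (Qd Q).card + 1) :
    ∃ (c : Perm (Fin n)) (z : Fin n), z ∈ Qz Q τ ∧ z ∉ Qd Q ∧
      (∀ x ∈ Qd Q, c x = τ x) ∧ (∀ x, x ∉ Qz Q τ → c x = x) ∧
      (∀ x ∈ Qz Q τ, x ≠ z → x ∈ Qd Q) ∧
      (∀ f ∈ Q, f ∈ feat c ∨ f = Sum.inl z) ∧
      ((c z ≠ z ∧ c.support.card + r = τ.support.card) ∨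
        (c z = z ∧ c.support.card + 1 + r = τ.support.card)) := by
  classical
  have hQ := hM.1
  obtain ⟨z, hz1, hz2, hz3, c, hc1, hc2⟩ := exists_center' (Qz Q τ) (Qd Q) τ (Qd_subset_Qz Q τ) hδ
    (fun x hx => image_subset_Qz Q τ (mem_image_of_mem _ hx))
  have hmov : ∀ x ∈ Qd Q, c x ≠ x := by
    intro x hx
    rw [hc1 x hx]
    exact Perm.mem_support.1 (Qz_subset_support hQ (Qd_subset_Qz Q τ hx))
  refine ⟨c, z, hz1, hz2, hc1, hc2, hz3, ?_, ?_⟩
  · intro f hf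
    rcases f with x | ⟨x, y⟩
    · by_cases hxz : x = z
      · right; rw [hxz]
      · left
        rw [inl_mem_feat]
        exact hmov x (hz3 x (Qp_subset_Qz Q τ (by
          simp only [Qp, mem_filter, mem_univ, true_and]; exact hf)) hxz)
    · left
      have hx := mem_Qd_of_inr hf
      rw [inr_mem_feat]
      refine ⟨hmov x hx, ?_⟩
      rw [hc1 x hx]; exact (inr_mem_feat.1 (hQ hf)).2
  · by_cases hcz : c z = z
    · right
      refine ⟨hcz, ?_⟩
      have : c.support = Qd Q := by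
        ext x
        rw [Perm.mem_support]
        constructor
        · intro hx
          by_cases hxZ : x ∈ Qz Q τ
          · exact hz3 x hxZ (fun e => hx (e ▸ hcz))
          · exact absurd (hc2 x hxZ) hx
        · exact hmov x
      rw [this, hM.2, hδ]
    · left
      refine ⟨hcz, ?_⟩
      have : c.support = Qz Q τ := by
        ext x
        rw [Perm.mem_support]
        constructor
        · intro hx
          by_contra hxZ
          exact hx (hc2 x hxZ)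
        · intro hx
          by_cases hxz : x = z
          · rw [hxz]; exact hcz
          · exact hmov x (hz3 x hx hxz)
      rw [this, hM.2]

/-- Two centres of type A coincide. -/
lemma centers_AA {m r e : ℕ} (hm : m = 2 * r + e) (he : e ≤ 1)
    {Q Q' : Finset (Fin n ⊕ Fin n × Fin n)} {u u' : ℕ} {c c' : Perm (Fin n)}
    (hcross : u + u' ≤ (Q ∩ Q').card + m) (hQ : Q ⊆ feat c) (hQ' : Q' ⊆ feat c')
    (hc : c.support.card + r = u) (hc' : c'.support.card + r = u') : c = c' := by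
  have h1 := pdist_add_inter c c'
  have h2 : (Q ∩ Q').card ≤ (feat c ∩ feat c').card :=
    card_le_card (inter_subset_inter hQ hQ')
  exact pdist_le_one (by omega)

/-- Centres of type A and B coincide. -/
lemma centers_AB {m r : ℕ} (hm : m = 2 * r + 1)
    {Q Q' : Finset (Fin n ⊕ Fin n × Fin n)} {u u' : ℕ} {c c' : Perm (Fin n)} {z : Fin n}
    (hcross : u + u' ≤ (Q ∩ Q').card + m) (hQ : Q ⊆ feat c)
    (hQ' : ∀ f ∈ Q', f ∈ feat c' ∨ f = Sum.inl z)
    (hc : c.support.card + r = u)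
    (hc' : (c' z ≠ z ∧ c'.support.card + r = u') ∨ (c' z = z ∧ c'.support.card + 1 + r = u')) :
    c = c' := by
  have h1 := pdist_add_inter c c'
  rcases hc' with ⟨hz, hcard⟩ | ⟨hz, hcard⟩
  · have hQ'' : Q' ⊆ feat c' := by
      intro f hf
      rcases hQ' f hf with h | h
      · exact h
      · rw [h, inl_mem_feat]; exact hz
    have h2 : (Q ∩ Q').card ≤ (feat c ∩ feat c').card :=
      card_le_card (inter_subset_inter hQ hQ'')
    exact pdist_le_one (by omega)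
  · have h2 : (Q ∩ Q') ⊆ insert (Sum.inl z) (feat c ∩ feat c') := by
      intro f hf
      rw [mem_inter] at hf
      rw [mem_insert, mem_inter]
      rcases hQ' f hf.2 with h | h
      · exact Or.inr ⟨hQ hf.1, h⟩
      · exact Or.inl h
    have h3 := (card_le_card h2).trans (card_insert_le _ _)
    exact pdist_le_one (by omega)

end Pool.Agent.H71.KInt
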