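import Pool.Agent.H71.KInt.Basic

set_option autoImplicit false

/-! Counting permutations with prescribed moved points and values. -/

namespace Pool.Agent.H71.KInt

open Finset Equiv
open scoped Nat

variable {n : ℕ}

/-- Permutations fixing everything outside `Y`. -/
lemma card_fix_outside (Y : Finset (Fin n)) :
    (univ.filter (fun ρ : Perm (Fin n) => ∀ x, x ∉ Y → ρ x = x)).card = (Y.card)! := by
  classical
  have h1 : (univ.filter (fun ρ : Perm (Fin n) => ∀ x, x ∉ Y → ρ x = x)).card
      = Fintype.card {ρ : Perm (Fin n) // ∀ x, ¬ (x ∈ Y) → ρ x = x} := by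
    rw [Fintype.card_subtype]
  rw [h1, ← Fintype.card_congr (Perm.subtypeEquivSubtypePerm (fun x => x ∈ Y)),
    Fintype.card_perm, Fintype.card_coe]

/-- Permutations with support exactly `X` and given values on `D ⊆ X`. -/
lemma card_supp_ext_le (X D : Finset (Fin n)) (hD : D ⊆ X) (f : Fin n → Fin n) :
    (univ.filter (fun τ : Perm (Fin n) => τ.support = X ∧ ∀ x ∈ D, τ x = f x)).card
      ≤ (X.card - D.card)! := by
  classical
  by_cases hne : (univ.filter (fun τ : Perm (Fin n) => τ.support = X ∧
      ∀ x ∈ D, τ x = f x)).Nonempty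
  swap
  · rw [not_nonempty_iff_eq_empty.1 hne]; simp
  obtain ⟨τ₁, h₁⟩ := hne
  simp only [mem_filter, mem_univ, true_and] at h₁
  rw [← card_sdiff_of_subset hD, ← card_fix_outside (X \ D)]
  refine card_le_card_of_injOn (fun τ => τ₁⁻¹ * τ) ?_ ?_
  · intro τ hτ
    simp only [coe_filter, mem_univ, true_and, Set.mem_ofPred_eq] at hτ ⊢
    intro x hx
    rw [mem_sdiff, not_and_not_right] at hx
    by_cases hxX : x ∈ X
    · have hxD := hx hxX
      rw [Perm.mul_apply, hτ.2 x hxD, ← h₁.2 x hxD]
      simp
    · have e1 : τ x = x := by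
        by_contra h
        exact hxX (hτ.1 ▸ Perm.mem_support.2 h)
      have e2 : τ₁ x = x := by
        by_contra h
        exact hxX (h₁.1 ▸ Perm.mem_support.2 h)
      rw [Perm.mul_apply, e1, Perm.inv_eq_iff_eq, e2]
  · intro a _ b _ h
    exact mul_left_cancel h

lemma card_supersets (Z : Finset (Fin n)) (u : ℕ) :
    (univ.filter (fun X : Finset (Fin n) => X.card = u ∧ Z ⊆ X)).card
      ≤ (n - Z.card).choose (u - Z.card) := by
  classical
  have h : ((univ \ Z).powersetCard (u - Z.card)).card = (n - Z.card).choose (u - Z.card) := by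
    rw [card_powersetCard, card_sdiff_of_subset (subset_univ _), card_univ, Fintype.card_fin]
  rw [← h]
  refine card_le_card_of_injOn (fun X => X \ Z) ?_ ?_
  · intro X hX
    simp only [coe_filter, mem_univ, true_and, Set.mem_ofPred_eq] at hX
    rw [mem_coe, mem_powersetCard]
    refine ⟨sdiff_subset_sdiff (subset_univ _) (Subset.refl _), ?_⟩
    rw [card_sdiff_of_subset hX.2, hX.1]
  · intro X hX Y hY h
    simp only [coe_filter, mem_univ, true_and, Set.mem_ofPred_eq] at hX hY
    have h' : X \ Z = Y \ Z := h
    rw [← sdiff_union_of_subset hX.2, ← sdiff_union_of_subset hY.2, h']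

/-- Main upper bound. -/
lemma card_ext_le (Z D : Finset (Fin n)) (hD : D ⊆ Z) (f : Fin n → Fin n) (u : ℕ) :
    (univ.filter (fun τ : Perm (Fin n) => τ.support.card = u ∧ Z ⊆ τ.support ∧
      ∀ x ∈ D, τ x = f x)).card
      ≤ (n - Z.card).choose (u - Z.card) * (u - D.card)! := by
  classical
  by_cases hu : Z.card ≤ u
  swap
  · have : (univ.filter (fun τ : Perm (Fin n) => τ.support.card = u ∧ Z ⊆ τ.support ∧
      ∀ x ∈ D, τ x = f x)) = ∅ := by
      rw [filter_eq_empty_iff]
      rintro τ - ⟨h1, h2, -⟩
      have := card_le_card h2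
      omega
    rw [this]; simp
  have hsub : (univ.filter (fun τ : Perm (Fin n) => τ.support.card = u ∧ Z ⊆ τ.support ∧
      ∀ x ∈ D, τ x = f x)) ⊆ (univ.filter (fun X : Finset (Fin n) => X.card = u ∧ Z ⊆ X)).biUnion
        (fun X => univ.filter (fun τ : Perm (Fin n) => τ.support = X ∧ ∀ x ∈ D, τ x = f x)) := by
    intro τ hτ
    simp only [mem_filter, mem_univ, true_and] at hτ
    rw [mem_biUnion]
    refine ⟨τ.support, ?_, ?_⟩
    · simp [hτ.1, hτ.2.1]
    · simp only [mem_filter, mem_univ, true_and]
      exact hτ.2.2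
  refine (card_le_card hsub).trans ((card_biUnion_le_card_mul _ _ ((u - D.card)!) ?_).trans ?_)
  · intro X hX
    simp only [mem_filter, mem_univ, true_and] at hX
    have := card_supp_ext_le X D (hD.trans hX.2) f
    rwa [hX.1] at this
  · exact Nat.mul_le_mul_right _ (card_supersets Z u)

/-- Permutations with support exactly `X`. -/
lemma card_supp_eq (X : Finset (Fin n)) :
    (univ.filter (fun τ : Perm (Fin n) => τ.support = X)).card = numDerangements X.card := by
  classical
  have h1 : (univ.filter (fun τ : Perm (Fin n) => τ.support = X)).card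
      = Fintype.card {f : Perm (Fin n) // ∀ a, ¬ (a ∈ X) ↔ a ∈ Function.fixedPoints f} := by
    rw [Fintype.card_subtype]
    congr 1
    ext τ
    simp only [mem_filter, mem_univ, true_and, Finset.ext_iff, Perm.mem_support,
      Function.mem_fixedPoints, Function.IsFixedPt]
    constructor
    · intro h a; rw [← h a]; simp
    · intro h a; rw [← not_iff_not, h a]; simp
  rw [h1, ← Fintype.card_congr (derangements.subtypeEquiv (fun x => x ∈ X)),
    card_derangements_eq_numDerangements, Fintype.card_coe]

lemma card_supp_family (𝒳 : Finset (Finset (Fin n))) (u : ℕ) (h : ∀ X ∈ 𝒳, X.card = u) :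
    (univ.filter (fun τ : Perm (Fin n) => τ.support ∈ 𝒳)).card
      = 𝒳.card * numDerangements u := by
  classical
  have : (univ.filter (fun τ : Perm (Fin n) => τ.support ∈ 𝒳))
      = 𝒳.biUnion (fun X => univ.filter (fun τ : Perm (Fin n) => τ.support = X)) := by
    ext τ; simp
  rw [this, card_biUnion]
  · rw [sum_congr rfl (fun X hX => by rw [card_supp_eq, h X hX]), sum_const, smul_eq_mul]
  · intro X _ Y _ hXY
    rw [Function.onFun, disjoint_left]
    intro τ h1 h2
    simp only [mem_filter, mem_univ, true_and] at h1 h2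
    exact hXY (h1.symm.trans h2)

/-- The sphere of radius `r` about the identity. -/
lemma card_sphere (r : ℕ) :
    (univ.filter (fun τ : Perm (Fin n) => τ.support.card = r)).card
      = n.choose r * numDerangements r := by
  classical
  have h : (univ.filter (fun τ : Perm (Fin n) => τ.support.card = r))
      = univ.filter (fun τ : Perm (Fin n) => τ.support ∈ (univ : Finset (Fin n)).powersetCard r) := by
    ext τ; simp [mem_powersetCard]
  rw [h, card_supp_family _ r (fun X hX => (mem_powersetCard.1 hX).2), card_powersetCard,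
    card_univ, Fintype.card_fin]

lemma card_sphere_notMem (r : ℕ) (z : Fin n) :
    (univ.filter (fun τ : Perm (Fin n) => τ.support.card = r ∧ z ∉ τ.support)).card
      = (n - 1).choose r * numDerangements r := by
  classical
  have h : (univ.filter (fun τ : Perm (Fin n) => τ.support.card = r ∧ z ∉ τ.support))
      = univ.filter (fun τ : Perm (Fin n) => τ.support ∈
          ((univ : Finset (Fin n)).erase z).powersetCard r) := by
    ext τ
    simp only [mem_filter, mem_univ, true_and, mem_powersetCard]
    constructor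
    · rintro ⟨h1, h2⟩
      exact ⟨fun x hx => mem_erase.2 ⟨fun e => h2 (e ▸ hx), mem_univ _⟩, h1⟩
    · rintro ⟨h1, h2⟩
      exact ⟨h2, fun h => (mem_erase.1 (h1 h)).1 rfl⟩
  rw [h, card_supp_family _ r (fun X hX => (mem_powersetCard.1 hX).2), card_powersetCard,
    card_erase_of_mem (mem_univ _), card_univ, Fintype.card_fin]

lemma card_sphere_mem (r : ℕ) (z : Fin n) :
    (univ.filter (fun τ : Perm (Fin n) => τ.support.card = r + 1 ∧ z ∈ τ.support)).card
      = (n - 1).choose r * numDerangements (r + 1) := by
  classical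
  set 𝒳 := (((univ : Finset (Fin n)).erase z).powersetCard r).image (fun Y => insert z Y) with h𝒳
  have hc : 𝒳.card = (n - 1).choose r := by
    rw [h𝒳, card_image_of_injOn, card_powersetCard, card_erase_of_mem (mem_univ _), card_univ,
      Fintype.card_fin]
    intro Y hY Y' hY' h
    rw [mem_coe, mem_powersetCard] at hY hY'
    have h1 : z ∉ Y := fun hz => (mem_erase.1 (hY.1 hz)).1 rfl
    have h2 : z ∉ Y' := fun hz => (mem_erase.1 (hY'.1 hz)).1 rfl
    have h' : insert z Y = insert z Y' := h
    rw [← erase_insert h1, ← erase_insert h2, h']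
  have h : (univ.filter (fun τ : Perm (Fin n) => τ.support.card = r + 1 ∧ z ∈ τ.support))
      = univ.filter (fun τ : Perm (Fin n) => τ.support ∈ 𝒳) := by
    ext τ
    simp only [mem_filter, mem_univ, true_and, h𝒳, mem_image, mem_powersetCard]
    constructor
    · rintro ⟨h1, h2⟩
      refine ⟨τ.support.erase z, ⟨erase_subset_erase _ (subset_univ _), ?_⟩, insert_erase h2⟩
      rw [card_erase_of_mem h2, h1]; rfl
    · rintro ⟨Y, ⟨h1, h2⟩, h3⟩
      have hz : z ∉ Y := fun hz => (mem_erase.1 (h1 hz)).1 rfl
      rw [← h3, card_insert_of_notMem hz, h2]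
      exact ⟨rfl, mem_insert_self _ _⟩
  rw [h, card_supp_family 𝒳 (r + 1) ?_, hc]
  intro X hX
  rw [h𝒳] at hX
  obtain ⟨Y, hY, rfl⟩ := mem_image.1 hX
  rw [mem_powersetCard] at hY
  rw [card_insert_of_notMem (fun hz => (mem_erase.1 (hY.1 hz)).1 rfl), hY.2]

/-- derangement bounds -/
lemma two_mul_numDerangements_le (r : ℕ) (hr : 2 ≤ r) : 2 * numDerangements r ≤ r ! := by
  induction r using Nat.strong_induction_on with
  | _ r ih =>
    match r, hr with
    | 2, _ => decide
    | 3, _ => decide
    | (k + 4), _ =>
      rw [numDerangements_add_two]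
      have h1 := ih (k + 2) (by omega) (by omega)
      have h2 := ih (k + 3) (by omega) (by omega)
      have e1 : (k + 4)! = (k + 4) * (k + 3)! := Nat.factorial_succ _
      have e2 : (k + 3)! = (k + 3) * (k + 2)! := Nat.factorial_succ _
      have e3 : (k + 3)! * (k + 3 + 1) = (k + 3) * ((k + 2)! + (k + 3)!) := by
        rw [e2]; ring
      calc 2 * ((k + 2 + 1) * (numDerangements (k + 2) + numDerangements (k + 2 + 1)))
          = (k + 3) * (2 * numDerangements (k + 2) + 2 * numDerangements (k + 3)) := by ring
        _ ≤ (k + 3) * ((k + 2)! + (k + 3)!) := by gcongr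
        _ = (k + 4)! := by rw [← e3, e1]; ring

lemma three_mul_numDerangements_ge (r : ℕ) (hr : 2 ≤ r) : r ! ≤ 3 * numDerangements r := by
  have key : ∀ r, 4 ≤ r → r ! + 3 ≤ 3 * numDerangements r := by
    intro r hr
    induction r, hr using Nat.le_induction with
    | base => decide
    | succ r hr ih =>
      have h1 := numDerangements_succ r
      have h2 : (-1 : ℤ) ^ r ≤ 1 := by
        rcases neg_one_pow_eq_or ℤ r with h | h <;> norm_num [h]
      have h3 : ((r + 1)! : ℤ) = (r + 1) * r ! := by
        rw [Nat.factorial_succ]; push_cast; ring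
      have h4 : ((r ! : ℤ) + 3) ≤ 3 * numDerangements r := by exact_mod_cast ih
      have h5 : (((r + 1)! : ℤ) + 3) ≤ 3 * numDerangements (r + 1) := by
        rw [h1, h3]
        have hr' : (4 : ℤ) ≤ r := by exact_mod_cast hr
        nlinarith
      exact_mod_cast h5
  rcases (by omega : r = 2 ∨ r = 3 ∨ 4 ≤ r) with rfl | rfl | h
  · decide
  · decide
  · have := key r h; omega

end Pool.Agent.H71.KInt
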