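import Pool.Agent.H71.KInt.Numerics

set_option autoImplicit false

/-! Families of bounded diameter and at least half of the extremal size: the structure. -/

namespace Pool.Agent.H71.KInt

open Finset Equiv
open scoped Nat

variable {n : ℕ}

lemma pdist_eq_support (c σ : Perm (Fin n)) : pdist σ c = (c⁻¹ * σ).support.card := by
  rw [← pdist_one, ← pdist_mul_left c⁻¹ σ c]; simp

lemma offcard_mul_left (ρ c σ : Perm (Fin n)) (z : Fin n) :
    offcard (ρ * c) z (ρ * σ) = offcard c z σ := by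
  unfold offcard
  congr 1
  ext x
  simp

lemma offcard_translate (c σ : Perm (Fin n)) (z : Fin n) :
    offcard c z σ = offcard 1 z (c⁻¹ * σ) := by
  rw [← offcard_mul_left c⁻¹ c σ z]; simp

/-- The core theorem for an arbitrary nonempty family. -/
theorem core_translate {m r e : ℕ} (hm : m = 2 * r + e) (he : e ≤ 1) (hr : 1 ≤ r)
    (hn : (500 * m) ^ 2 ≤ n) (A : Finset (Perm (Fin n))) (hne : A.Nonempty)
    (hA : ∀ σ ∈ A, ∀ τ ∈ A, pdist σ τ ≤ m) :
    ∃ (c : Perm (Fin n)) (z : Fin n),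
      (A.filter (fun τ => ¬ (pdist τ c = r ∨ (e = 1 ∧ τ z ≠ c z ∧ offcard c z τ = r)))).card
        ≤ 9100 * D1 n m r e := by
  classical
  obtain ⟨σ₀, hσ₀⟩ := hne
  obtain ⟨c, z, hcz⟩ := core hm he hr hn (A.image (fun σ => σ₀⁻¹ * σ))
    (mem_image.2 ⟨σ₀, hσ₀, by simp⟩) (by
      intro σ hσ τ hτ
      obtain ⟨σ', hσ', rfl⟩ := mem_image.1 hσ
      obtain ⟨τ', hτ', rfl⟩ := mem_image.1 hτ
      rw [pdist_mul_left]
      exact hA σ' hσ' τ' hτ')
  refine ⟨σ₀ * c, z, le_trans ?_ hcz⟩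
  refine card_le_card_of_injOn (fun σ => σ₀⁻¹ * σ) ?_ ?_
  · intro τ hτ
    simp only [coe_filter, Set.mem_ofPred_eq] at hτ ⊢
    refine ⟨mem_image_of_mem _ hτ.1, ?_⟩
    have e1 : pdist τ (σ₀ * c) = pdist (σ₀⁻¹ * τ) c := by
      rw [← pdist_mul_left σ₀⁻¹ τ (σ₀ * c)]; simp
    have e2 : offcard (σ₀ * c) z τ = offcard c z (σ₀⁻¹ * τ) := by
      rw [← offcard_mul_left σ₀⁻¹ (σ₀ * c) τ z]; simp
    have e3 : τ z = (σ₀ * c) z ↔ (σ₀⁻¹ * τ) z = c z := by
      rw [Perm.mul_apply, Perm.mul_apply, Perm.inv_eq_iff_eq]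
    rw [← e1, ← e2, ne_eq, ← e3]
    exact hτ.2
  · intro a _ b _ h
    exact mul_left_cancel h

theorem even_final {r : ℕ} (hr : 2 ≤ r) (hn : (500 * (2 * r)) ^ 2 ≤ n)
    (A : Finset (Perm (Fin n))) (hA : ∀ σ ∈ A, ∀ τ ∈ A, pdist σ τ ≤ 2 * r)
    (hbig : n.choose r * numDerangements r ≤ 2 * A.card) :
    ∃ c : Perm (Fin n), ∀ σ ∈ A, pdist σ c ≤ r := by
  classical
  have hnum := num_even hr hn
  have hne : A.Nonempty := by
    rw [← card_pos]; omega
  obtain ⟨c, z, hcz⟩ := core_translate (r := r) (e := 0) rfl (by norm_num) (by omega)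
    hn A hne hA
  refine ⟨c, ?_⟩
  have hcz' : (A.filter (fun τ => ¬ (pdist τ c = r))).card ≤ 9100 * D1 n (2 * r) r 0 := by
    refine le_trans (card_le_card ?_) hcz
    intro τ hτ
    rw [mem_filter] at hτ ⊢
    refine ⟨hτ.1, ?_⟩
    rintro (h | h)
    · exact hτ.2 h
    · exact absurd h.1 (by norm_num)
  have hsplit := card_filter_add_card_filter_not (s := A) (fun τ => pdist τ c = r)
  set B := A.image (fun σ => c⁻¹ * σ) with hB
  have hinj : Function.Injective (fun σ : Perm (Fin n) => c⁻¹ * σ) := mul_right_injective _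
  have hBf : (B.filter (fun τ => τ.support.card = r)).card = (A.filter (fun τ => pdist τ c = r)).card := by
    rw [hB, filter_image, card_image_of_injective _ hinj]
    congr 1
    ext τ
    rw [mem_filter, mem_filter, pdist_eq_support]
  have hall := even_all (r := r) (by omega) B (by
    intro σ hσ τ hτ
    obtain ⟨σ', hσ', rfl⟩ := mem_image.1 hσ
    obtain ⟨τ', hτ', rfl⟩ := mem_image.1 hτ
    show pdist (c⁻¹ * σ') (c⁻¹ * τ') ≤ 2 * r
    rw [pdist_mul_left]
    exact hA σ' hσ' τ' hτ') (by rw [hBf]; omega)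
  intro σ hσ
  rw [pdist_eq_support]
  exact hall _ (mem_image_of_mem _ hσ)

theorem odd_final {r : ℕ} (hr : 1 ≤ r) (hn : (500 * (2 * r + 1)) ^ 2 ≤ n)
    (A : Finset (Perm (Fin n))) (hA : ∀ σ ∈ A, ∀ τ ∈ A, pdist σ τ ≤ 2 * r + 1)
    (hbig : (n - 1).choose r * (numDerangements r + numDerangements (r + 1)) ≤ 2 * A.card) :
    ∃ (c : Perm (Fin n)) (z : Fin n), ∀ σ ∈ A, offcard c z σ ≤ r := by
  classical
  have hnum := num_odd hr hn
  have hne : A.Nonempty := by
    rw [← card_pos]; omega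
  obtain ⟨c, z, hcz⟩ := core_translate (r := r) (e := 1) rfl (by norm_num) (by omega)
    hn A hne hA
  refine ⟨c, z, ?_⟩
  set B := A.image (fun σ => c⁻¹ * σ) with hB
  have hinj : Function.Injective (fun σ : Perm (Fin n) => c⁻¹ * σ) := mul_right_injective _
  have hBcard : B.card = A.card := card_image_of_injective _ hinj
  -- sizes of the pieces
  have hbad : (B.filter (fun τ => ¬ (τ.support.card = r ∨ (τ z ≠ z ∧ offcard 1 z τ = r)))).card ≤
      9100 * D1 n (2 * r + 1) r 1 := by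
    refine le_trans (le_of_eq ?_) hcz
    rw [hB, filter_image, card_image_of_injective _ hinj]
    congr 1
    ext τ
    rw [mem_filter, mem_filter, pdist_eq_support, offcard_translate c τ z]
    have e3 : (c⁻¹ * τ) z = z ↔ τ z = c z := by
      rw [Perm.mul_apply, Perm.inv_eq_iff_eq]
    rw [ne_eq, e3]
    simp
  have hsph : (B.filter (fun τ => τ.support.card = r)).card ≤ n.choose r * numDerangements r := by
    rw [← card_sphere r]
    refine card_le_card ?_
    intro τ hτ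
    rw [mem_filter] at hτ ⊢
    exact ⟨mem_univ _, hτ.2⟩
  have hcov : B ⊆ (B.filter (fun τ => ¬ (τ.support.card = r ∨ (τ z ≠ z ∧ offcard 1 z τ = r)))) ∪
      ((B.filter (fun τ => τ.support.card = r)) ∪ (B.filter (fun τ => τ z ≠ z ∧ offcard 1 z τ = r))) := by
    intro τ hτ
    rw [mem_union, mem_union, mem_filter, mem_filter, mem_filter]
    by_cases h1 : τ.support.card = r
    · exact Or.inr (Or.inl ⟨hτ, h1⟩)
    · by_cases h2 : τ z ≠ z ∧ offcard 1 z τ = r
      · exact Or.inr (Or.inr ⟨hτ, h2⟩)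
      · left
        refine ⟨hτ, ?_⟩
        rintro (h | h)
        · exact h1 h
        · exact h2 h
  have hcard := (card_le_card hcov).trans ((card_union_le _ _).trans
    (Nat.add_le_add_left (card_union_le _ _) _))
  have hall := odd_all (r := r) hr B z (by
    intro σ hσ τ hτ
    obtain ⟨σ', hσ', rfl⟩ := mem_image.1 hσ
    obtain ⟨τ', hτ', rfl⟩ := mem_image.1 hτ
    show pdist (c⁻¹ * σ') (c⁻¹ * τ') ≤ 2 * r + 1
    rw [pdist_mul_left]
    exact hA σ' hσ' τ' hτ') (by omega)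
  intro σ hσ
  rw [offcard_translate]
  exact hall _ (mem_image_of_mem _ hσ)

end Pool.Agent.H71.KInt
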