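import Mathlib

set_option autoImplicit false

/-! Minimal generating families of kernels with levels, and the branching count. -/

namespace Pool.Agent.H71.KInt

open Finset

variable {α ι : Type*} [DecidableEq α]

/-- `T` is a family of kernels with levels, cross-intersecting relative to `m`, generating
the sets `Φ i` at level `lv i` (`i ∈ A`), all of size at most `L`. -/
structure Good (A : Finset ι) (Φ : ι → Finset α) (lv : ι → ℕ) (m L : ℕ)
    (T : Finset (Finset α × ℕ)) : Prop where
  cross : ∀ a ∈ T, ∀ b ∈ T, a.2 + b.2 ≤ (a.1 ∩ b.1).card + m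
  cover : ∀ i ∈ A, ∃ a ∈ T, a.2 = lv i ∧ a.1 ⊆ Φ i
  bdd : ∀ a ∈ T, a.1.card ≤ L

/-- No kernel can be shrunk. -/
def Tight (m : ℕ) (T : Finset (Finset α × ℕ)) : Prop :=
  ∀ a ∈ T, ∀ x ∈ a.1, ∃ b ∈ T, ((a.1.erase x) ∩ b.1).card + m < a.2 + b.2

theorem exists_tight [DecidableEq ι] (A : Finset ι) (Φ : ι → Finset α) (lv : ι → ℕ) (m L : ℕ)
    (hL : ∀ i ∈ A, (Φ i).card ≤ L)
    (hA : ∀ i ∈ A, ∀ j ∈ A, lv i + lv j ≤ (Φ i ∩ Φ j).card + m) :
    ∃ T, Good A Φ lv m L T ∧ Tight m T := by
  classical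
  have h0 : ∃ k, ∃ T : Finset (Finset α × ℕ), Good A Φ lv m L T ∧ ∑ a ∈ T, a.1.card = k := by
    refine ⟨_, A.image (fun i => (Φ i, lv i)), ⟨?_, ?_, ?_⟩, rfl⟩
    · intro a ha b hb
      obtain ⟨i, hi, rfl⟩ := mem_image.1 ha
      obtain ⟨j, hj, rfl⟩ := mem_image.1 hb
      exact hA i hi j hj
    · intro i hi
      exact ⟨_, mem_image_of_mem _ hi, rfl, Subset.refl _⟩
    · intro a ha
      obtain ⟨i, hi, rfl⟩ := mem_image.1 ha
      exact hL i hi
  obtain ⟨T, hT, hsum⟩ := Nat.find_spec h0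
  refine ⟨T, hT, ?_⟩
  intro a ha x hx
  by_contra hcon
  push Not at hcon
  -- the shrunken family
  set a' : Finset α × ℕ := (a.1.erase x, a.2) with ha'
  set T' := insert a' (T.erase a) with hT'
  have hself : a.2 + a.2 ≤ (a.1.erase x).card + m := by
    have := hcon a ha
    rwa [inter_eq_left.2 (erase_subset x a.1)] at this
  have hgood : Good A Φ lv m L T' := by
    refine ⟨?_, ?_, ?_⟩
    · intro b hb c hc
      rcases mem_insert.1 hb with rfl | hb <;> rcases mem_insert.1 hc with rfl | hc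
      · simpa [ha'] using hself
      · exact hcon c (mem_of_mem_erase hc)
      · have := hcon b (mem_of_mem_erase hb)
        rw [inter_comm, add_comm]
        exact this
      · exact hT.cross b (mem_of_mem_erase hb) c (mem_of_mem_erase hc)
    · intro i hi
      obtain ⟨b, hb, hb1, hb2⟩ := hT.cover i hi
      by_cases hba : b = a
      · subst hba
        exact ⟨a', mem_insert_self _ _, hb1, (erase_subset _ _).trans hb2⟩
      · exact ⟨b, mem_insert_of_mem (mem_erase.2 ⟨hba, hb⟩), hb1, hb2⟩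
    · intro b hb
      rcases mem_insert.1 hb with rfl | hb
      · exact (card_le_card (erase_subset _ _)).trans (hT.bdd a ha)
      · exact hT.bdd b (mem_of_mem_erase hb)
  have hlt : ∑ b ∈ T', b.1.card < ∑ b ∈ T, b.1.card := by
    have h1 : ∑ b ∈ T', b.1.card ≤ a'.1.card + ∑ b ∈ T.erase a, b.1.card := by
      by_cases h : a' ∈ T.erase a
      · rw [hT', insert_eq_self.2 h]; omega
      · rw [hT', sum_insert h]
    have h2 : a.1.card + ∑ b ∈ T.erase a, b.1.card = ∑ b ∈ T, b.1.card :=
      add_sum_erase T (fun b => b.1.card) ha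
    have h3 : a'.1.card < a.1.card := card_erase_lt_of_mem hx
    omega
  rw [hsum] at hlt
  exact Nat.find_min h0 hlt ⟨T', hgood, rfl⟩

/-- Branching: few kernels of given level and size above a given set. -/
theorem branch {T : Finset (Finset α × ℕ)} {m L : ℕ}
    (hcross : ∀ a ∈ T, ∀ b ∈ T, a.2 + b.2 ≤ (a.1 ∩ b.1).card + m)
    (hbdd : ∀ a ∈ T, a.1.card ≤ L) (ht : Tight m T) (u : ℕ) :
    ∀ k (B : Finset α),
      (T.filter (fun a => a.2 = u ∧ B ⊆ a.1 ∧ a.1.card = B.card + k)).card ≤ L ^ k := by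
  classical
  intro k
  induction k with
  | zero =>
    intro B
    rw [pow_zero, card_le_one]
    intro a ha b hb
    simp only [mem_filter, add_zero] at ha hb
    obtain ⟨_, ha1, ha2, ha3⟩ := ha
    obtain ⟨_, hb1, hb2, hb3⟩ := hb
    have e1 := eq_of_subset_of_card_le ha2 ha3.le
    have e2 := eq_of_subset_of_card_le hb2 hb3.le
    exact Prod.ext (e1.symm.trans e2) (ha1.trans hb1.symm)
  | succ k ih =>
    intro B
    by_cases hne : (T.filter (fun a => a.2 = u ∧ B ⊆ a.1 ∧ a.1.card = B.card + (k + 1))).Nonempty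
    swap
    · rw [not_nonempty_iff_eq_empty.1 hne]; simp
    obtain ⟨a, ha⟩ := hne
    simp only [mem_filter] at ha
    obtain ⟨haT, ha1, ha2, ha3⟩ := ha
    have hss : ∃ x ∈ a.1, x ∉ B := by
      by_contra h
      push Not at h
      have := card_le_card (show a.1 ⊆ B from h)
      omega
    obtain ⟨x, hxa, hxB⟩ := hss
    obtain ⟨b, hbT, hb⟩ := ht a haT x hxa
    have hBb : (B ∩ b.1).card + m < u + b.2 := by
      refine lt_of_le_of_lt ?_ (ha1 ▸ hb)
      have : (B ∩ b.1) ⊆ (a.1.erase x) ∩ b.1 := by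
        intro y hy
        rw [mem_inter] at hy ⊢
        refine ⟨mem_erase.2 ⟨?_, ha2 hy.1⟩, hy.2⟩
        rintro rfl
        exact hxB hy.1
      have := card_le_card this
      omega
    have hsub : T.filter (fun a => a.2 = u ∧ B ⊆ a.1 ∧ a.1.card = B.card + (k + 1)) ⊆
        (b.1 \ B).biUnion (fun y => T.filter (fun a => a.2 = u ∧ insert y B ⊆ a.1 ∧
          a.1.card = (insert y B).card + k)) := by
      intro c hc
      simp only [mem_filter] at hc
      obtain ⟨hcT, hc1, hc2, hc3⟩ := hc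
      have h1 := hcross c hcT b hbT
      have h2 : (B ∩ b.1).card < (c.1 ∩ b.1).card := by rw [hc1] at h1; omega
      obtain ⟨y, hy, hyB⟩ := exists_mem_notMem_of_card_lt_card h2
      rw [mem_inter] at hy hyB
      have hyB' : y ∉ B := fun h => hyB ⟨h, hy.2⟩
      rw [mem_biUnion]
      refine ⟨y, mem_sdiff.2 ⟨hy.2, hyB'⟩, ?_⟩
      rw [mem_filter]
      refine ⟨hcT, hc1, insert_subset hy.1 hc2, ?_⟩
      rw [card_insert_of_notMem hyB', hc3]
      ring
    calc (T.filter (fun a => a.2 = u ∧ B ⊆ a.1 ∧ a.1.card = B.card + (k + 1))).card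
        ≤ _ := card_le_card hsub
      _ ≤ (b.1 \ B).card * L ^ k := by
          refine card_biUnion_le_card_mul _ _ _ (fun y _ => ih (insert y B))
      _ ≤ L * L ^ k := by
          gcongr
          exact (card_le_card sdiff_subset).trans (hbdd b hbT)
      _ = L ^ (k + 1) := by ring

/-- The number of kernels of level `u` and excess `l` is at most `L ^ (s + l)`, where `s` is
the excess of any given kernel `p`. -/
theorem level_count {T : Finset (Finset α × ℕ)} {m L : ℕ} (hL1 : 1 ≤ L)
    (hcross : ∀ a ∈ T, ∀ b ∈ T, a.2 + b.2 ≤ (a.1 ∩ b.1).card + m)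
    (hbdd : ∀ a ∈ T, a.1.card ≤ L) (ht : Tight m T) {p : Finset α × ℕ} (hp : p ∈ T) {s : ℕ}
    (hs : p.1.card + m = 2 * p.2 + s) (u l : ℕ) :
    (T.filter (fun a => a.2 = u ∧ a.1.card + m = 2 * u + l)).card ≤ L ^ (s + l) := by
  classical
  by_cases hne : (T.filter (fun a => a.2 = u ∧ a.1.card + m = 2 * u + l)).Nonempty
  swap
  · rw [not_nonempty_iff_eq_empty.1 hne]; simp
  obtain ⟨a0, ha0⟩ := hne
  simp only [mem_filter] at ha0
  obtain ⟨ha0T, ha01, ha02⟩ := ha0
  -- t = u + p.2 - m
  set t := u + p.2 - m with ht'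
  have hint : ∀ a ∈ T, a.2 = u → t ≤ (a.1 ∩ p.1).card := by
    intro a ha hau
    have := hcross a ha p hp
    omega
  have htp : t ≤ p.1.card := (hint a0 ha0T ha01).trans (card_le_card inter_subset_right)
  have hta : t ≤ a0.1.card := (hint a0 ha0T ha01).trans (card_le_card inter_subset_left)
  set k := a0.1.card - t with hk
  have hsub : T.filter (fun a => a.2 = u ∧ a.1.card + m = 2 * u + l) ⊆
      (p.1.powersetCard t).biUnion (fun B => T.filter (fun a => a.2 = u ∧ B ⊆ a.1 ∧
        a.1.card = B.card + k)) := by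
    intro a ha
    simp only [mem_filter] at ha
    obtain ⟨haT, ha1, ha2⟩ := ha
    obtain ⟨B, hB1, hB2⟩ := exists_subset_card_eq (hint a haT ha1)
    rw [mem_biUnion]
    refine ⟨B, mem_powersetCard.2 ⟨hB1.trans inter_subset_right, hB2⟩, ?_⟩
    rw [mem_filter]
    refine ⟨haT, ha1, hB1.trans inter_subset_left, ?_⟩
    rw [hB2]
    omega
  have hchoose : (p.1.card).choose t * L ^ k ≤ L ^ (s + l) := by
    by_cases hum : m ≤ u + p.2
    · have h1 : (p.1.card).choose t ≤ L ^ (p.1.card - t) := by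
        rw [← Nat.choose_symm htp]
        calc (p.1.card).choose (p.1.card - t) ≤ (p.1.card) ^ (p.1.card - t) :=
              Nat.choose_le_pow _ _
          _ ≤ L ^ (p.1.card - t) := Nat.pow_le_pow_left (hbdd p hp) _
      calc (p.1.card).choose t * L ^ k ≤ L ^ (p.1.card - t) * L ^ k := by gcongr
        _ = L ^ (p.1.card - t + k) := by rw [pow_add]
        _ = L ^ (s + l) := by congr 1; omega
    · have ht0 : t = 0 := by omega
      rw [ht0, Nat.choose_zero_right, one_mul]
      exact Nat.pow_le_pow_right hL1 (by omega)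
  calc (T.filter (fun a => a.2 = u ∧ a.1.card + m = 2 * u + l)).card ≤ _ := card_le_card hsub
    _ ≤ (p.1.powersetCard t).card * L ^ k := by
        refine card_biUnion_le_card_mul _ _ _ (fun B _ => branch hcross hbdd ht u k B)
    _ = (p.1.card).choose t * L ^ k := by rw [card_powersetCard]
    _ ≤ L ^ (s + l) := hchoose

end Pool.Agent.H71.KInt
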