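import Pool.Agent.H71.KInt.Core

set_option autoImplicit false

/-! The core structure theorem: a family of bounded diameter lives, up to few elements,
on one sphere (and one punctured sphere if the diameter is odd). -/

namespace Pool.Agent.H71.KInt

open Finset Equiv
open scoped Nat

variable {n : ℕ}

lemma offcard_of_eq {c τ : Perm (Fin n)} {z : Fin n} (h : τ z = c z) :
    offcard c z τ = pdist τ c := by
  unfold offcard pdist
  congr 1
  ext x
  simp only [mem_filter, mem_univ, true_and, and_iff_right_iff_imp]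
  rintro h1 rfl
  exact h1 h

lemma good_B {r : ℕ} {Q : Finset (Fin n ⊕ Fin n × Fin n)} {τ₁ τ c : Perm (Fin n)} {z : Fin n}
    (hM₁ : Main r Q τ₁) (hM : Main r Q τ) (hz : z ∈ Qz Q τ₁)
    (hc1 : ∀ x ∈ Qd Q, c x = τ₁ x) (hc2 : ∀ x, x ∉ Qz Q τ₁ → c x = x)
    (hc3 : ∀ x ∈ Qz Q τ₁, x ≠ z → x ∈ Qd Q) :
    pdist τ c = r ∨ (τ z ≠ c z ∧ offcard c z τ = r) := by
  classical
  have hZ : Qz Q τ₁ = Qz Q τ := Qz_congr hM₁.1 hM.1
  have hoff : offcard c z τ = r := by
    have h1 : univ.filter (fun x => x ≠ z ∧ τ x ≠ c x) = τ.support \ Qz Q τ := by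
      ext x
      simp only [mem_filter, mem_univ, true_and, mem_sdiff, Perm.mem_support]
      rw [← hZ]
      constructor
      · rintro ⟨h1, h2⟩
        have h3 : x ∉ Qz Q τ₁ := by
          intro hx
          have hxd := hc3 x hx h1
          apply h2
          rw [hc1 x hxd, eq_on_Qd hM₁.1 hM.1 hxd]
        rw [hc2 x h3] at h2
        exact ⟨h2, h3⟩
      · rintro ⟨h1, h2⟩
        refine ⟨?_, ?_⟩
        · rintro rfl; exact h2 hz
        · rw [hc2 x h2]; exact h1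
    unfold offcard
    rw [h1, card_sdiff_of_subset (Qz_subset_support hM.1), hM.2]
    omega
  by_cases h : τ z = c z
  · left; rw [← offcard_of_eq h]; exact hoff
  · right; exact ⟨h, hoff⟩

lemma main_good {m r e : ℕ} (hm : m = 2 * r + e) (he : e ≤ 1) (z₀ : Fin n)
    (A : Finset (Perm (Fin n))) (T : Finset (Finset (Fin n ⊕ Fin n × Fin n) × ℕ))
    (hcross : ∀ a ∈ T, ∀ b ∈ T, a.2 + b.2 ≤ (a.1 ∩ b.1).card + m) :
    ∃ (c : Perm (Fin n)) (z : Fin n), ∀ τ ∈ A, ∀ a ∈ T, a.2 = τ.support.card → Main r a.1 τ →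
      (pdist τ c = r ∨ (e = 1 ∧ τ z ≠ c z ∧ offcard c z τ = r)) := by
  classical
  have hself : ∀ a ∈ T, 2 * a.2 ≤ a.1.card + m := by
    intro a ha
    have := hcross a ha a ha
    rw [inter_self] at this
    omega
  have hdl : ∀ τ : Perm (Fin n), ∀ a ∈ T, a.2 = τ.support.card → Main r a.1 τ →
      ((Qz a.1 τ).card - (Qd a.1).card) + (a.1.card + m - 2 * a.2) ≤ e := by
    intro τ a ha h2 hM
    have h1 := hself a ha
    have := kernel_ineq (m := m) (l := a.1.card + m - 2 * a.2) hM.1 (by omega)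
    have h3 := hM.2
    omega
  have hdz : ∀ τ : Perm (Fin n), ∀ a ∈ T, (Qd a.1).card ≤ (Qz a.1 τ).card := fun τ a _ =>
    card_le_card (Qd_subset_Qz a.1 τ)
  -- type A pairs
  have hAA : ∀ (c : Perm (Fin n)), (∃ a₀ ∈ T, a₀.1 ⊆ feat c ∧ c.support.card + r = a₀.2) →
      ∀ τ : Perm (Fin n), ∀ a ∈ T, a.2 = τ.support.card → Main r a.1 τ →
      (Qz a.1 τ).card = (Qd a.1).card → pdist τ c = r := by
    rintro c ⟨a₀, ha₀, hc1, hc2⟩ τ a ha h2 hM hδ
    obtain ⟨c', h3, h4, h5⟩ := center_A hM hδ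
    have := centers_AA hm he (hcross a₀ ha₀ a ha) hc1 h4 hc2 (h5.trans h2.symm)
    rw [this]
    exact h3
  by_cases hB : ∃ τ₁ : Perm (Fin n), ∃ a₁ ∈ T, a₁.2 = τ₁.support.card ∧ Main r a₁.1 τ₁ ∧
      (Qz a₁.1 τ₁).card = (Qd a₁.1).card + 1
  · obtain ⟨τ₁, a₁, ha₁, h2₁, hM₁, hδ₁⟩ := hB
    have he1 : e = 1 := by
      have := hdl τ₁ a₁ ha₁ h2₁ hM₁
      omega
    have hl₁ : a₁.1.card + m = 2 * a₁.2 := by
      have h1 := hdl τ₁ a₁ ha₁ h2₁ hM₁
      have h2 := hself a₁ ha₁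
      omega
    obtain ⟨c, z, hz1, hz2, hc1, hc2, hc3, hc4, hc5⟩ := center_B hM₁ hδ₁
    refine ⟨c, z, ?_⟩
    intro τ _ a ha h2 hM
    by_cases hδ : (Qz a.1 τ).card = (Qd a.1).card
    · left
      obtain ⟨c', h3, h4, h5⟩ := center_A hM hδ
      have := centers_AB (m := m) (by omega) (hcross a ha a₁ ha₁) h4 hc4 (h5.trans h2.symm)
        (by rw [h2₁]; exact hc5)
      rw [← this]
      exact h3
    · have h1 := hdl τ a ha h2 hM
      have h3 := hdz τ a ha
      have h4 := hself a ha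
      have hl : a.1.card + m = 2 * a.2 := by omega
      have hcr := hcross a ha a₁ ha₁
      have i1 := card_le_card (inter_subset_left : a.1 ∩ a₁.1 ⊆ a.1)
      have i2 := card_le_card (inter_subset_right : a.1 ∩ a₁.1 ⊆ a₁.1)
      have e1 : a.1 ∩ a₁.1 = a.1 := eq_of_subset_of_card_le inter_subset_left (by omega)
      have e2 : a.1 ∩ a₁.1 = a₁.1 := eq_of_subset_of_card_le inter_subset_right (by omega)
      have e3 : a.1 = a₁.1 := e1.symm.trans e2
      rw [e3] at hM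
      rcases good_B hM₁ hM hz1 hc1 hc2 hc3 with h | h
      · exact Or.inl h
      · exact Or.inr ⟨he1, h⟩
  · have hnoB : ∀ τ : Perm (Fin n), ∀ a ∈ T, a.2 = τ.support.card → Main r a.1 τ →
        (Qz a.1 τ).card = (Qd a.1).card := by
      intro τ a ha h2 hM
      have h1 := hdl τ a ha h2 hM
      have h3 := hdz τ a ha
      by_contra hne
      exact hB ⟨τ, a, ha, h2, hM, by omega⟩
    by_cases hAex : ∃ τ₁ : Perm (Fin n), ∃ a₁ ∈ T, a₁.2 = τ₁.support.card ∧ Main r a₁.1 τ₁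
    · obtain ⟨τ₁, a₁, ha₁, h2₁, hM₁⟩ := hAex
      obtain ⟨c, h3, h4, h5⟩ := center_A hM₁ (hnoB τ₁ a₁ ha₁ h2₁ hM₁)
      refine ⟨c, z₀, ?_⟩
      intro τ _ a ha h2 hM
      left
      exact hAA c ⟨a₁, ha₁, h4, h5.trans h2₁.symm⟩ τ a ha h2 hM (hnoB τ a ha h2 hM)
    · refine ⟨1, z₀, ?_⟩
      intro τ _ a ha h2 hM
      exact absurd ⟨τ, a, ha, h2, hM⟩ hAex

/-- elementary summation -/
lemma sum_levels (m D : ℕ) (f : ℕ → ℕ)
    (h1 : ∀ l, f l ≤ (l + 1) ^ 2 * 8 ^ l * D)
    (h2 : ∀ i, 31 ^ i * f (3 + i) ≤ 8192 * D) : ∑ l ∈ range (m + 1), f l ≤ 9100 * D := by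
  have h3 : ∑ l ∈ range (m + 1), f l ≤ ∑ l ∈ range (3 + m), f l := by
    apply sum_le_sum_of_subset
    exact range_subset_range.2 (by omega)
  refine h3.trans ?_
  rw [sum_range_add]
  have h4 : ∑ i ∈ range m, f (3 + i) ≤ 8466 * D := by
    calc ∑ i ∈ range m, f (3 + i) ≤ ∑ i ∈ range m, (8192 * D) / 31 ^ i := by
          refine sum_le_sum (fun i _ => ?_)
          rw [Nat.le_div_iff_mul_le (by positivity), mul_comm]
          exact h2 i
      _ ≤ (8192 * D) * 31 / (31 - 1) := Nat.geom_sum_le (by norm_num) _ _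
      _ ≤ 8466 * D := by
          apply Nat.div_le_of_le_mul
          omega
  have h5 : ∑ l ∈ range 3, f l ≤ 609 * D := by
    rw [sum_range_succ, sum_range_succ, sum_range_succ, sum_range_zero]
    have a0 := h1 0
    have a1 := h1 1
    have a2 := h1 2
    norm_num at a0 a1 a2
    omega
  omega

/-- The core structure theorem. -/
theorem core {m r e : ℕ} (hm : m = 2 * r + e) (he : e ≤ 1) (hr : 1 ≤ r)
    (hn : (500 * m) ^ 2 ≤ n)
    (A : Finset (Perm (Fin n))) (h1 : (1 : Perm (Fin n)) ∈ A)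
    (hA : ∀ σ ∈ A, ∀ τ ∈ A, pdist σ τ ≤ m) :
    ∃ (c : Perm (Fin n)) (z : Fin n),
      (A.filter (fun τ => ¬ (pdist τ c = r ∨ (e = 1 ∧ τ z ≠ c z ∧ offcard c z τ = r)))).card
        ≤ 9100 * D1 n m r e := by
  classical
  have hm1 : 1 ≤ m := by omega
  have hn0 : 0 < n := by
    have : 0 < (500 * m) ^ 2 := by positivity
    omega
  have hsupp : ∀ σ ∈ A, σ.support.card ≤ m := by
    intro σ hσ
    rw [← pdist_one]
    exact hA σ hσ 1 h1
  obtain ⟨T, hT, htight⟩ := exists_tight A (fun τ => feat τ) (fun τ => τ.support.card) m (2 * m)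
    (by
      intro i hi
      rw [card_feat]
      have := hsupp i hi
      omega)
    (by
      intro i hi j hj
      have h2 := pdist_add_inter i j
      have h3 := hA i hi j hj
      show i.support.card + j.support.card ≤ (feat i ∩ feat j).card + m
      omega)
  obtain ⟨c, z, hcz⟩ := main_good hm he ⟨0, hn0⟩ A T hT.cross
  refine ⟨c, z, ?_⟩
  set bad : Perm (Fin n) → Prop := fun τ =>
    ¬ (pdist τ c = r ∨ (e = 1 ∧ τ z ≠ c z ∧ offcard c z τ = r)) with hbad
  have hself : ∀ a ∈ T, 2 * a.2 ≤ a.1.card + m := by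
    intro a ha
    have := hT.cross a ha a ha
    rw [inter_self] at this
    omega
  -- classes
  set C : ℕ → Finset (Finset (Fin n ⊕ Fin n × Fin n) × ℕ) := fun l =>
    T.filter (fun a => a.1.card + m = 2 * a.2 + l) with hC
  set K : Finset (Fin n ⊕ Fin n × Fin n) × ℕ → Finset (Perm (Fin n)) := fun a =>
    A.filter (fun τ => bad τ ∧ τ.support.card = a.2 ∧ a.1 ⊆ feat τ) with hK
  have hcount : ∀ l, (C l).card ≤ (l + 1) ^ 2 * (4 * (2 * m)) ^ l := fun l =>
    excess_count (by omega) hT.cross hT.bdd htight l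
  have hKbound : ∀ l, ∀ a ∈ C l,
      (l + 1) ^ 2 * (4 * (2 * m)) ^ l * (K a).card ≤ (l + 1) ^ 2 * 8 ^ l * D1 n m r e ∧
      (∀ i, l = 3 + i → 31 ^ i * ((l + 1) ^ 2 * (4 * (2 * m)) ^ l * (K a).card) ≤
        8192 * D1 n m r e) := by
    intro l a ha
    by_cases hne : (K a).Nonempty
    swap
    · rw [not_nonempty_iff_eq_empty.1 hne]; simp
    obtain ⟨τ, hτ⟩ := hne
    simp only [hK, mem_filter] at hτ
    simp only [hC, mem_filter] at ha
    obtain ⟨hτA, hτb, hτu, hτf⟩ := hτ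
    obtain ⟨haT, hal⟩ := ha
    have hnm : ¬ Main r a.1 τ := fun hM => hτb (hcz τ hτA a haT hτu.symm hM)
    have hineq := kernel_ineq (m := m) (l := l) hτf (by omega)
    have hzu : (Qz a.1 τ).card ≤ τ.support.card := card_le_card (Qz_subset_support hτf)
    have hne' : τ.support.card - (Qz a.1 τ).card ≠ r := by
      intro h
      exact hnm ⟨hτf, by omega⟩
    have hle : (K a).card ≤ n ^ (a.2 - (Qz a.1 τ).card) *
        a.2 ^ ((Qz a.1 τ).card - (Qd a.1).card) := by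
      refine (card_le_card ?_).trans (card_kernel_le (τ := τ) (Q := a.1) hτu hτf)
      intro σ hσ
      simp only [hK, mem_filter] at hσ
      simp only [mem_filter, mem_univ, true_and]
      exact ⟨hσ.2.2.1, hσ.2.2.2⟩
    rw [hτu] at hineq hne'
    have hu : a.2 ≤ m := by rw [← hτu]; exact hsupp τ hτA
    obtain ⟨b1, b2⟩ := nonmain_arith hm he hr hu hineq hne' hn
    refine ⟨(Nat.mul_le_mul_left _ hle).trans b1, fun i hi => ?_⟩
    exact (Nat.mul_le_mul_left _ (Nat.mul_le_mul_left _ hle)).trans (b2 i hi)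
  have hsumC : ∀ l, ∑ a ∈ C l, (K a).card ≤ (l + 1) ^ 2 * 8 ^ l * D1 n m r e ∧
      (∀ i, l = 3 + i → 31 ^ i * ∑ a ∈ C l, (K a).card ≤ 8192 * D1 n m r e) := by
    intro l
    set G := (l + 1) ^ 2 * (4 * (2 * m)) ^ l with hG
    have hpos : 0 < G := by positivity
    constructor
    · refine Nat.le_of_mul_le_mul_left (?_ : G * _ ≤ G * _) hpos
      rw [mul_sum]
      calc _ ≤ ∑ a ∈ C l, (l + 1) ^ 2 * 8 ^ l * D1 n m r e :=
            sum_le_sum (fun a ha => (hKbound l a ha).1)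
        _ = (C l).card * ((l + 1) ^ 2 * 8 ^ l * D1 n m r e) := by rw [sum_const, smul_eq_mul]
        _ ≤ _ := Nat.mul_le_mul_right _ (hcount l)
    · intro i hi
      refine Nat.le_of_mul_le_mul_left (?_ : G * _ ≤ G * _) hpos
      rw [mul_left_comm, mul_sum, mul_sum]
      calc _ ≤ ∑ a ∈ C l, 8192 * D1 n m r e := sum_le_sum (fun a ha => (hKbound l a ha).2 i hi)
        _ = (C l).card * (8192 * D1 n m r e) := by rw [sum_const, smul_eq_mul]
        _ ≤ _ := Nat.mul_le_mul_right _ (hcount l)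
  -- covering
  have hcover : A.filter bad ⊆ (range (m + 1)).biUnion (fun l => (C l).biUnion K) := by
    intro τ hτ
    rw [mem_filter] at hτ
    obtain ⟨a, ha, ha1, ha2⟩ := hT.cover τ hτ.1
    have hs := hsupp τ hτ.1
    have hself' := hself a ha
    have hcf : a.1.card ≤ 2 * τ.support.card := by
      rw [← card_feat]; exact card_le_card ha2
    have ha1' : a.2 = τ.support.card := ha1
    rw [mem_biUnion]
    refine ⟨a.1.card + m - 2 * a.2, mem_range.2 (by omega), ?_⟩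
    rw [mem_biUnion]
    refine ⟨a, ?_, ?_⟩
    · simp only [hC, mem_filter]
      exact ⟨ha, by omega⟩
    · simp only [hK, mem_filter]
      exact ⟨hτ.1, hτ.2, ha1'.symm, ha2⟩
  calc (A.filter bad).card ≤ _ := card_le_card hcover
    _ ≤ ∑ l ∈ range (m + 1), ∑ a ∈ C l, (K a).card := by
        refine card_biUnion_le.trans (sum_le_sum (fun l _ => ?_))
        exact card_biUnion_le
    _ ≤ 9100 * D1 n m r e :=
        sum_levels m _ _ (fun l => (hsumC l).1) (fun i => (hsumC (3 + i)).2 i rfl)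

end Pool.Agent.H71.KInt
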