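import Pool.Agent.H71.KInt.Rich

set_option autoImplicit false

/-! Numerical inequalities. -/

namespace Pool.Agent.H71.KInt

open Finset Equiv
open scoped Nat

lemma bern (n a k : ℕ) (h : a ≤ n) : n ^ (k + 1) ≤ (n - a) ^ (k + 1) + (k + 1) * a * n ^ k := by
  induction k with
  | zero => simp; omega
  | succ k ih =>
    obtain ⟨b, rfl⟩ : ∃ b, n = b + a := ⟨n - a, by omega⟩
    rw [Nat.add_sub_cancel] at ih ⊢
    have h1 : b ^ (k + 1) ≤ (b + a) ^ (k + 1) := Nat.pow_le_pow_left (by omega) _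
    calc (b + a) ^ (k + 1 + 1) = (b + a) * (b + a) ^ (k + 1) := by ring
      _ ≤ (b + a) * (b ^ (k + 1) + (k + 1) * a * (b + a) ^ k) := by gcongr
      _ = b ^ (k + 1 + 1) + a * b ^ (k + 1) + (k + 1) * a * (b + a) ^ (k + 1) := by ring
      _ ≤ b ^ (k + 1 + 1) + a * (b + a) ^ (k + 1) + (k + 1) * a * (b + a) ^ (k + 1) := by gcongr
      _ = b ^ (k + 1 + 1) + (k + 1 + 1) * a * (b + a) ^ (k + 1) := by ring

lemma numDerangements_le_factorial (r : ℕ) : numDerangements r ≤ r ! := by
  rcases (by omega : r = 0 ∨ r = 1 ∨ 2 ≤ r) with rfl | rfl | h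
  · decide
  · decide
  · have := two_mul_numDerangements_le r h; omega

lemma six_mul_numDerangements (r : ℕ) (hr : 1 ≤ r) :
    6 * numDerangements r + (r + 1)! ≤ 6 * numDerangements (r + 1) := by
  rcases (by omega : r = 1 ∨ 2 ≤ r) with rfl | h
  · decide
  · have h1 := three_mul_numDerangements_ge (r + 1) (by omega)
    have h2 := two_mul_numDerangements_le r h
    have h3 : 3 * r ! ≤ (r + 1)! := by
      rw [Nat.factorial_succ]; gcongr; omega
    omega

/-- lower bound for the sphere -/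
lemma sphere_lower {n r : ℕ} (hr : 2 ≤ r) (hn : r ≤ n) :
    n ^ r ≤ 3 * (n.choose r * numDerangements r) + r * r * n ^ (r - 1) := by
  have h1 : (n + 1 - r) ^ r ≤ n.descFactorial r := Nat.pow_sub_le_descFactorial n r
  have h2 : n.descFactorial r = r ! * n.choose r := Nat.descFactorial_eq_factorial_mul_choose n r
  have h3 := three_mul_numDerangements_ge r hr
  have h4 := bern n r (r - 1) hn
  rw [Nat.sub_add_cancel (by omega : 1 ≤ r)] at h4
  have h5 : (n - r) ^ r ≤ (n + 1 - r) ^ r := Nat.pow_le_pow_left (by omega) _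
  have h6 : r ! * n.choose r ≤ 3 * numDerangements r * n.choose r := by gcongr
  nlinarith

lemma num_even {n r : ℕ} (hr : 2 ≤ r) (hn : (500 * (2 * r)) ^ 2 ≤ n) :
    2 * (9100 * D1 n (2 * r) r 0 + 3 * r ^ 2 * n ^ (r - 1)) <
      n.choose r * numDerangements r := by
  have hn' : 1000000 * r ^ 2 ≤ n := by
    refine le_trans (le_of_eq ?_) hn; ring
  have hr2 : r ≤ r ^ 2 := Nat.le_self_pow (by norm_num) r
  have hrn : r ≤ n := by omega
  have h1 := sphere_lower hr hrn
  obtain ⟨s, rfl⟩ : ∃ s, r = s + 1 := ⟨r - 1, by omega⟩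
  simp only [Nat.add_sub_cancel] at h1 ⊢
  unfold D1
  simp only [Nat.add_sub_cancel]
  set r := s + 1 with hrdef
  set X := n.choose r * numDerangements r
  have hN : 0 < n ^ s := by
    have : 0 < n := by omega
    positivity
  have h2 : n ^ r = n * n ^ s := by rw [hrdef]; ring
  rw [h2] at h1
  have h3 : 218419 * r ^ 2 < n := by
    refine lt_of_lt_of_le ?_ hn'
    have e4 : 1 ≤ r ^ 2 := Nat.one_le_pow _ _ (by omega)
    omega
  have h4 : (218419 * r ^ 2) * n ^ s < n * n ^ s :=
    Nat.mul_lt_mul_of_pos_right h3 hN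
  have h5 : 3 * (2 * (9100 * ((2 * r) ^ (0 + 2) * n ^ s) +
      3 * r ^ 2 * n ^ s)) + r * r * n ^ s =
      (218419 * r ^ 2) * n ^ s := by
    ring
  omega

lemma num_odd {n r : ℕ} (hr : 1 ≤ r) (hn : (500 * (2 * r + 1)) ^ 2 ≤ n) :
    2 * (n.choose r * numDerangements r + 9100 * D1 n (2 * r + 1) r 1
      + (3 * r + 2) * (r + 1) ^ 2 * n ^ (r - 1)) <
      (n - 1).choose r * (numDerangements r + numDerangements (r + 1)) := by
  have hn' : 250000 * (2 * r + 1) ^ 2 ≤ n := by
    refine le_trans (le_of_eq ?_) hn; ring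
  have hr6 : (2 * r + 1) ≤ (2 * r + 1) ^ 2 := Nat.le_self_pow (by norm_num) _
  have hrn : r + 1 ≤ n := by omega
  obtain ⟨s, rfl⟩ : ∃ s, r = s + 1 := ⟨r - 1, by omega⟩
  obtain ⟨n', rfl⟩ : ∃ n', n = n' + 1 := ⟨n - 1, by omega⟩
  -- Pascal
  have hP : (n' + 1).choose (s + 1) = n'.choose s + n'.choose (s + 1) := Nat.choose_succ_succ n' s
  -- bounds
  have h1 : n'.choose s * numDerangements (s + 1) ≤ (n' + 1) ^ s * (s + 1) := by
    have := choose_mul_factorial_le n' s 1
    rw [pow_one] at this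
    calc n'.choose s * numDerangements (s + 1) ≤ n'.choose s * (s + 1)! := by
          gcongr; exact numDerangements_le_factorial _
      _ ≤ n' ^ s * (s + 1) := this
      _ ≤ (n' + 1) ^ s * (s + 1) := by gcongr; omega
  have h2 := six_mul_numDerangements (s + 1) (by omega)
  have h3 : (n' + 1) ^ (s + 1) ≤ n'.choose (s + 1) * (s + 1)! + (s + 1) * (s + 1) * (n' + 1) ^ s := by
    have a1 : (n' + 1 - (s + 1)) ^ (s + 1) ≤ n'.descFactorial (s + 1) :=
      Nat.pow_sub_le_descFactorial n' (s + 1)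
    have a2 : n'.descFactorial (s + 1) = (s + 1)! * n'.choose (s + 1) :=
      Nat.descFactorial_eq_factorial_mul_choose _ _
    have a3 := bern (n' + 1) (s + 1) s (by omega)
    calc _ ≤ _ := a3
      _ ≤ (s + 1)! * n'.choose (s + 1) + (s + 1) * (s + 1) * (n' + 1) ^ s := by
          rw [← a2]; gcongr
      _ = _ := by ring
  simp only [Nat.add_sub_cancel]
  unfold D1
  simp only [Nat.add_sub_cancel]
  rw [hP]
  set r := s + 1 with hrdef
  set n := n' + 1 with hndef
  set C := n'.choose r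
  set C' := n'.choose s
  set N := n ^ s
  have hN : 0 < N := by
    have : 0 < n := by omega
    positivity
  have h4 : n ^ r = n * N := by
    rw [hrdef, pow_succ]; ring
  rw [h4] at h3
  -- the main inequality
  have h5 : 12 * r + 109200 * (2 * r + 1) ^ 3 + 12 * ((3 * r + 2) * (r + 1) ^ 2)
      + (r + 1) * r ^ 2 < (r + 1) * n := by
    refine lt_of_lt_of_le ?_ (Nat.mul_le_mul_left (r + 1) hn')
    set M := 2 * r + 1 with hM
    have e2 : (3 * r + 2) * (r + 1) ≤ 3 * M ^ 2 := by rw [hM]; nlinarith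
    have e3 : r ^ 2 ≤ M ^ 2 := by rw [hM]; nlinarith
    have e4 : 1 ≤ M ^ 2 := Nat.one_le_pow _ _ (by omega)
    have e5 : 12 * r ≤ (r + 1) * (12 * M ^ 2) := by nlinarith
    have e6 : 12 * ((3 * r + 2) * (r + 1) ^ 2) = (r + 1) * (12 * ((3 * r + 2) * (r + 1))) := by ring
    have e7 : 109200 * M ^ 3 ≤ (r + 1) * (218400 * M ^ 2) := by
      calc 109200 * M ^ 3 = M * (109200 * M ^ 2) := by ring
        _ ≤ (2 * (r + 1)) * (109200 * M ^ 2) := by gcongr; omega
        _ = (r + 1) * (218400 * M ^ 2) := by ring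
    have e8 : (r + 1) * (12 * ((3 * r + 2) * (r + 1))) ≤ (r + 1) * (36 * M ^ 2) :=
      Nat.mul_le_mul_left _ (by omega)
    have e9 : (r + 1) * r ^ 2 ≤ (r + 1) * M ^ 2 := by gcongr
    have e10 : (r + 1) * (12 * M ^ 2) + (r + 1) * (218400 * M ^ 2) + (r + 1) * (36 * M ^ 2)
        + (r + 1) * M ^ 2 < (r + 1) * (250000 * M ^ 2) := by
      rw [← mul_add, ← mul_add, ← mul_add]
      apply Nat.mul_lt_mul_of_pos_left _ (by omega)
      omega
    omega
  have h6 := Nat.mul_lt_mul_of_pos_right h5 hN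
  have h7 : C * (r + 1)! = (r + 1) * (C * r !) := by rw [Nat.factorial_succ]; ring
  have h8 : (r + 1) * (n * N) ≤ (r + 1) * (C * r ! + r * r * N) := Nat.mul_le_mul_left _ h3
  have h9 : C * (6 * numDerangements r + (r + 1)!) ≤ C * (6 * numDerangements (r + 1)) :=
    Nat.mul_le_mul_left _ h2
  have h10 : 12 * (C' * numDerangements r) ≤ 12 * (N * r) := Nat.mul_le_mul_left _ h1
  have h11 : (r + 1) * n * N = (r + 1) * (n * N) := by ring
  have h12 : (12 * r + 109200 * (2 * r + 1) ^ 3 + 12 * ((3 * r + 2) * (r + 1) ^ 2)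
      + (r + 1) * r ^ 2) * N = 12 * (N * r) + 12 * (9100 * ((2 * r + 1) ^ (1 + 2) * N))
      + 12 * ((3 * r + 2) * (r + 1) ^ 2 * N) + (r + 1) * (r * r * N) := by ring
  have h13 : (r + 1) * (C * r ! + r * r * N) = (r + 1) * (C * r !) + (r + 1) * (r * r * N) := by ring
  have h14 : C * (6 * numDerangements r + (r + 1)!) = 6 * (C * numDerangements r) + C * (r + 1)! := by
    ring
  have h15 : C * (6 * numDerangements (r + 1)) = 6 * (C * numDerangements (r + 1)) := by ring
  have h16 : C * (numDerangements r + numDerangements (r + 1)) =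
      C * numDerangements r + C * numDerangements (r + 1) := by ring
  have h17 : (C' + C) * numDerangements r = C' * numDerangements r + C * numDerangements r := by ring
  rw [h16, h17]
  omega

end Pool.Agent.H71.KInt
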