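import Pool.Agent.H71.KInt.Main

set_option autoImplicit false

/-! A rich sphere swallows the whole family. -/

namespace Pool.Agent.H71.KInt

open Finset Equiv
open scoped Nat

variable {n : ℕ}

/-- number of permutations with `u` moved points, moving all of `Z` -/
lemma card_moving_le (Z : Finset (Fin n)) (u : ℕ) :
    (univ.filter (fun τ : Perm (Fin n) => τ.support.card = u ∧ Z ⊆ τ.support)).card
      ≤ (n - Z.card).choose (u - Z.card) * u ! := by
  classical
  refine (card_le_card ?_).trans (card_ext_le Z ∅ (empty_subset _) (fun x => x) u)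
  intro τ hτ
  simp only [mem_filter, mem_univ, true_and] at hτ ⊢
  exact ⟨hτ.1, hτ.2, by simp⟩

/-- If many elements of the family lie on the sphere of radius `r`, then all lie in the ball. -/
lemma even_all {r : ℕ} (hr : 1 ≤ r) (A : Finset (Perm (Fin n)))
    (hA : ∀ σ ∈ A, ∀ τ ∈ A, pdist σ τ ≤ 2 * r)
    (hbig : 3 * r ^ 2 * n ^ (r - 1) < (A.filter (fun τ => τ.support.card = r)).card) :
    ∀ σ ∈ A, σ.support.card ≤ r := by
  classical
  intro σ hσ
  by_contra hcon
  push Not at hcon
  have hne : (A.filter (fun τ => τ.support.card = r)).Nonempty := by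
    rw [← card_pos]; omega
  have hs3 : σ.support.card ≤ 3 * r := by
    obtain ⟨τ, hτ⟩ := hne
    rw [mem_filter] at hτ
    have h1 := hA σ hσ τ hτ.1
    have h2 := pdist_triangle σ τ 1
    rw [pdist_one, pdist_one, hτ.2] at h2
    omega
  have hsub : A.filter (fun τ => τ.support.card = r) ⊆ σ.support.biUnion (fun x =>
      univ.filter (fun τ : Perm (Fin n) => τ.support.card = r ∧ {x} ⊆ τ.support)) := by
    intro τ hτ
    rw [mem_filter] at hτ
    have h1 := hA σ hσ τ hτ.1
    have h2 := pdist_add_inter σ τ
    rw [hτ.2] at h2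
    have h3 : 0 < (feat σ ∩ feat τ).card := by omega
    obtain ⟨f, hf⟩ := card_pos.1 h3
    rw [mem_inter] at hf
    rw [mem_biUnion]
    rcases f with x | ⟨x, y⟩
    · refine ⟨x, Perm.mem_support.2 (inl_mem_feat.1 hf.1), ?_⟩
      rw [mem_filter]
      refine ⟨mem_univ _, hτ.2, ?_⟩
      rw [singleton_subset_iff]
      exact Perm.mem_support.2 (inl_mem_feat.1 hf.2)
    · refine ⟨x, Perm.mem_support.2 (inr_mem_feat.1 hf.1).1, ?_⟩
      rw [mem_filter]
      refine ⟨mem_univ _, hτ.2, ?_⟩
      rw [singleton_subset_iff]
      exact Perm.mem_support.2 (inr_mem_feat.1 hf.2).1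
  have hle : (A.filter (fun τ => τ.support.card = r)).card ≤ 3 * r ^ 2 * n ^ (r - 1) := by
    refine (card_le_card hsub).trans ((card_biUnion_le_card_mul _ _ (n ^ (r - 1) * r) ?_).trans ?_)
    · intro x _
      refine (card_moving_le {x} r).trans ?_
      rw [card_singleton]
      have := choose_mul_factorial_le (n - 1) (r - 1) 1
      rw [Nat.sub_add_cancel hr, pow_one] at this
      refine this.trans ?_
      gcongr
      omega
    · calc σ.support.card * (n ^ (r - 1) * r) ≤ (3 * r) * (n ^ (r - 1) * r) := by gcongr
        _ = 3 * r ^ 2 * n ^ (r - 1) := by ring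
  omega

lemma offcard_one (z : Fin n) (τ : Perm (Fin n)) :
    offcard 1 z τ = (τ.support.erase z).card := by
  unfold offcard
  congr 1
  ext x
  rw [mem_filter, mem_erase, Perm.mem_support]
  simp

/-- The odd case: many elements moving `z` and exactly `r` other points. -/
lemma odd_all {r : ℕ} (hr : 1 ≤ r) (A : Finset (Perm (Fin n))) (z : Fin n)
    (hA : ∀ σ ∈ A, ∀ τ ∈ A, pdist σ τ ≤ 2 * r + 1)
    (hbig : (3 * r + 2) * (r + 1) ^ 2 * n ^ (r - 1) <
      (A.filter (fun τ => τ z ≠ z ∧ offcard 1 z τ = r)).card) :
    ∀ σ ∈ A, offcard 1 z σ ≤ r := by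
  classical
  intro σ hσ
  by_contra hcon
  push Not at hcon
  rw [offcard_one] at hcon
  have hI : ∀ τ : Perm (Fin n), τ z ≠ z → offcard 1 z τ = r → τ.support.card = r + 1 := by
    intro τ h1 h2
    rw [offcard_one, card_erase_of_mem (Perm.mem_support.2 h1)] at h2
    omega
  have hne : (A.filter (fun τ => τ z ≠ z ∧ offcard 1 z τ = r)).Nonempty := by
    rw [← card_pos]; omega
  have hs3 : σ.support.card ≤ 3 * r + 2 := by
    obtain ⟨τ, hτ⟩ := hne
    rw [mem_filter] at hτ
    have h1 := hA σ hσ τ hτ.1
    have h2 := pdist_triangle σ τ 1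
    rw [pdist_one, pdist_one, hI τ hτ.2.1 hτ.2.2] at h2
    omega
  have hsub : A.filter (fun τ => τ z ≠ z ∧ offcard 1 z τ = r) ⊆
      (σ.support.erase z).biUnion (fun x =>
      univ.filter (fun τ : Perm (Fin n) => τ.support.card = r + 1 ∧ {z, x} ⊆ τ.support)) := by
    intro τ hτ
    rw [mem_filter] at hτ
    have hτs := hI τ hτ.2.1 hτ.2.2
    have h1 := hA σ hσ τ hτ.1
    have h2 := pdist_add_inter σ τ
    rw [hτs] at h2
    -- a common moved point different from z
    have key : ∃ x, x ≠ z ∧ σ x ≠ x ∧ τ x ≠ x := by
      by_contra hno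
      push Not at hno
      by_cases hz : σ z = z
      · have h3 : σ.support.erase z = σ.support := by
          rw [erase_eq_of_notMem]
          rw [Perm.mem_support]; simpa using hz
        rw [h3] at hcon
        have h4 : feat σ ∩ feat τ = ∅ := by
          rw [eq_empty_iff_forall_notMem]
          intro f hf
          rw [mem_inter] at hf
          rcases f with x | ⟨x, y⟩
          · have a1 := inl_mem_feat.1 hf.1
            have a2 := inl_mem_feat.1 hf.2
            have a3 : x ≠ z := by rintro rfl; exact a1 hz
            exact a2 (hno x a3 a1)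
          · have a1 := (inr_mem_feat.1 hf.1).1
            have a2 := (inr_mem_feat.1 hf.2).1
            have a3 : x ≠ z := by rintro rfl; exact a1 hz
            exact a2 (hno x a3 a1)
        rw [h4, card_empty] at h2
        omega
      · have h3 : (σ.support.erase z).card + 1 = σ.support.card :=
          card_erase_add_one (Perm.mem_support.2 hz)
        have h4 : feat σ ∩ feat τ ⊆ {Sum.inl z} := by
          intro f hf
          rw [mem_inter] at hf
          rw [mem_singleton]
          rcases f with x | ⟨x, y⟩
          · have a1 := inl_mem_feat.1 hf.1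
            have a2 := inl_mem_feat.1 hf.2
            by_contra hx
            have a3 : x ≠ z := fun e => hx (by rw [e])
            exact a2 (hno x a3 a1)
          · exfalso
            obtain ⟨a1, b1⟩ := inr_mem_feat.1 hf.1
            obtain ⟨a2, b2⟩ := inr_mem_feat.1 hf.2
            by_cases hx : x = z
            · subst hx
              -- the image point is moved by both
              have c1 : σ y ≠ y := by
                intro h; exact a1 (by rw [← b1] at h; exact σ.injective h)
              have c2 : τ y ≠ y := by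
                intro h; exact a2 (by rw [← b2] at h; exact τ.injective h)
              have c3 : y ≠ x := by rw [← b1]; exact a1
              exact c2 (hno y c3 c1)
            · exact a2 (hno x hx a1)
        have h5 := card_le_card h4
        rw [card_singleton] at h5
        omega
    obtain ⟨x, hx1, hx2, hx3⟩ := key
    rw [mem_biUnion]
    refine ⟨x, mem_erase.2 ⟨hx1, Perm.mem_support.2 hx2⟩, ?_⟩
    rw [mem_filter]
    refine ⟨mem_univ _, hτs, ?_⟩
    intro y hy
    rw [mem_insert, mem_singleton] at hy
    rcases hy with rfl | rfl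
    · exact Perm.mem_support.2 hτ.2.1
    · exact Perm.mem_support.2 hx3
  have hle : (A.filter (fun τ => τ z ≠ z ∧ offcard 1 z τ = r)).card ≤
      (3 * r + 2) * (r + 1) ^ 2 * n ^ (r - 1) := by
    refine (card_le_card hsub).trans
      ((card_biUnion_le_card_mul _ _ (n ^ (r - 1) * (r + 1) ^ 2) ?_).trans ?_)
    · intro x hx
      refine (card_moving_le {z, x} (r + 1)).trans ?_
      have hzx : z ≠ x := fun e => (mem_erase.1 hx).1 e.symm
      rw [card_pair hzx, show r + 1 - 2 = r - 1 by omega]
      have := choose_mul_factorial_le (n - 2) (r - 1) 2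
      rw [show r - 1 + 2 = r + 1 by omega] at this
      refine this.trans ?_
      gcongr
      omega
    · calc (σ.support.erase z).card * (n ^ (r - 1) * (r + 1) ^ 2)
          ≤ (3 * r + 2) * (n ^ (r - 1) * (r + 1) ^ 2) := by
            gcongr
            exact (card_le_card (erase_subset _ _)).trans hs3
        _ = (3 * r + 2) * (r + 1) ^ 2 * n ^ (r - 1) := by ring
  omega

end Pool.Agent.H71.KInt
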