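import Pool.Agent.H71.KInt.Final

set_option autoImplicit false

/-! From distances back to the families `M_i`. -/

namespace Pool.Agent.H71.KInt

open Finset Equiv
open scoped Nat

/-- The family `M_i`. -/
def Mfam (n k i : ℕ) : Finset (Perm (Fin n)) :=
  univ.filter (fun π => k + i ≤ (univ.filter (fun j : Fin n => j.val < k + 2 * i ∧ π j = j)).card)

/-- the extremal index -/
def idx (m : ℕ) : ℕ := if m = 2 then 0 else m / 2

lemma one_mem_Mfam {n k i : ℕ} (h : k + 2 * i ≤ n) : (1 : Perm (Fin n)) ∈ Mfam n k i := by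
  classical
  rw [Mfam, mem_filter]
  refine ⟨mem_univ _, ?_⟩
  have h1 : (univ.filter (fun j : Fin n => j.val < k + 2 * i ∧ (1 : Perm (Fin n)) j = j)) =
      univ.filter (fun j : Fin n => j.val < k + 2 * i) := by
    ext j; simp
  rw [h1, Fin.card_filter_val_lt]
  omega

lemma Mfam_intersecting {n k i : ℕ} (σ τ : Perm (Fin n)) (hσ : σ ∈ Mfam n k i)
    (hτ : τ ∈ Mfam n k i) : k ≤ (univ.filter (fun j : Fin n => σ j = τ j)).card := by
  classical
  rw [Mfam, mem_filter] at hσ hτ
  have h1 := hσ.2
  have h2 := hτ.2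
  set P := univ.filter (fun j : Fin n => j.val < k + 2 * i ∧ σ j = j)
  set Q := univ.filter (fun j : Fin n => j.val < k + 2 * i ∧ τ j = j)
  have h3 : (P ∪ Q).card ≤ k + 2 * i := by
    have : P ∪ Q ⊆ univ.filter (fun j : Fin n => j.val < k + 2 * i) := by
      intro j hj
      rw [mem_union, mem_filter, mem_filter] at hj
      rw [mem_filter]
      refine ⟨mem_univ _, ?_⟩
      rcases hj with h | h
      · exact h.2.1
      · exact h.2.1
    refine (card_le_card this).trans ?_
    rw [Fin.card_filter_val_lt]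
    omega
  have h4 := card_union_add_card_inter P Q
  have h5 : (P ∩ Q).card ≤ (univ.filter (fun j : Fin n => σ j = τ j)).card := by
    refine card_le_card ?_
    intro j hj
    rw [mem_inter, mem_filter, mem_filter] at hj
    rw [mem_filter]
    exact ⟨mem_univ _, hj.1.2.2.trans hj.2.2.2.symm⟩
  omega

lemma mem_Mfam_even {n k r : ℕ} (hn : n = k + 2 * r) (π : Perm (Fin n)) :
    π ∈ Mfam n k r ↔ π.support.card ≤ r := by
  classical
  rw [Mfam, mem_filter]
  have h1 : (univ.filter (fun j : Fin n => j.val < k + 2 * r ∧ π j = j)) =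
      univ.filter (fun j : Fin n => π j = (1 : Perm (Fin n)) j) := by
    ext j
    have : j.val < k + 2 * r := by have := j.isLt; omega
    rw [mem_filter, mem_filter]
    simp [this]
  have h2 := agree_add_pdist π 1
  rw [pdist_one] at h2
  rw [h1]
  constructor
  · rintro ⟨-, h⟩; omega
  · intro h; exact ⟨mem_univ _, by omega⟩

lemma mem_Mfam_odd {n k r : ℕ} (hn : n = k + 2 * r + 1) (z : Fin n) (hz : z.val = k + 2 * r)
    (π : Perm (Fin n)) : π ∈ Mfam n k r ↔ offcard 1 z π ≤ r := by
  classical
  rw [Mfam, mem_filter]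
  have hlt : ∀ j : Fin n, j.val < k + 2 * r ↔ j ≠ z := by
    intro j
    have := j.isLt
    rw [ne_eq, Fin.ext_iff, hz]
    omega
  have h1 : (univ.filter (fun j : Fin n => j.val < k + 2 * r ∧ π j = j)).card + offcard 1 z π
      = n - 1 := by
    have e1 : (univ.filter (fun j : Fin n => j.val < k + 2 * r ∧ π j = j)) =
        ((univ : Finset (Fin n)).erase z).filter (fun j => π j = j) := by
      ext j
      rw [mem_filter, mem_filter, mem_erase, hlt]
      simp
    have e2 : offcard 1 z π = (((univ : Finset (Fin n)).erase z).filter (fun j => ¬ (π j = j))).card := by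
      unfold offcard
      congr 1
      ext j
      rw [mem_filter, mem_filter, mem_erase]
      simp
    rw [e1, e2, card_filter_add_card_filter_not, card_erase_of_mem (mem_univ _), card_univ,
      Fintype.card_fin]
  constructor
  · rintro ⟨-, h⟩; omega
  · intro h; exact ⟨mem_univ _, by omega⟩

lemma card_Mfam_even {n k r : ℕ} (hn : n = k + 2 * r) :
    n.choose r * numDerangements r ≤ (Mfam n k r).card := by
  rw [← card_sphere r]
  refine card_le_card ?_
  intro τ hτ
  rw [mem_filter] at hτ
  rw [mem_Mfam_even hn]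
  exact hτ.2.le

lemma card_Mfam_odd {n k r : ℕ} (hn : n = k + 2 * r + 1) :
    (n - 1).choose r * (numDerangements r + numDerangements (r + 1)) ≤ (Mfam n k r).card := by
  classical
  set z : Fin n := ⟨k + 2 * r, by omega⟩ with hz
  rw [mul_add, ← card_sphere_notMem r z, ← card_sphere_mem r z, ← card_union_of_disjoint]
  · refine card_le_card ?_
    intro τ hτ
    rw [mem_Mfam_odd hn z rfl, offcard_one]
    rw [mem_union, mem_filter, mem_filter] at hτ
    rcases hτ with ⟨-, h1, h2⟩ | ⟨-, h1, h2⟩
    · rw [erase_eq_of_notMem h2]; exact h1.le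
    · rw [card_erase_of_mem h2, h1]; rfl
  · rw [disjoint_left]
    intro τ h1 h2
    rw [mem_filter] at h1 h2
    exact h1.2.2 h2.2.2

/-- distances from agreements -/
lemma pdist_of_agree {n k : ℕ} {F : Finset (Perm (Fin n))}
    (hF : ∀ σ ∈ F, ∀ τ ∈ F, σ ≠ τ → k ≤ (univ.filter (fun j : Fin n => σ j = τ j)).card) :
    ∀ σ ∈ F, ∀ τ ∈ F, pdist σ τ ≤ n - k := by
  intro σ hσ τ hτ
  by_cases h : σ = τ
  · subst h
    have : pdist σ σ = 0 := by unfold pdist; simp
    omega
  · have h1 := hF σ hσ τ hτ h
    have h2 := agree_add_pdist σ τ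
    omega

/-- stability, distance at least three -/
theorem stab_big {n k : ℕ} (hkn : k ≤ n) (h3 : 3 ≤ n - k) (hn : (500 * (n - k)) ^ 2 ≤ n)
    (F : Finset (Perm (Fin n)))
    (hF : ∀ σ ∈ F, ∀ τ ∈ F, σ ≠ τ → k ≤ (univ.filter (fun j : Fin n => σ j = τ j)).card)
    (hbig : (Mfam n k (idx (n - k))).card ≤ 2 * F.card) :
    ∃ σ τ : Perm (Fin n), F ⊆ (Mfam n k (idx (n - k))).image (fun π => σ * π * τ) := by
  classical
  have hd := pdist_of_agree hF
  rcases Nat.even_or_odd' (n - k) with ⟨r, hr | hr⟩
  · have hi : idx (n - k) = r := by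
      unfold idx; rw [if_neg (by omega)]; omega
    have hnk : n = k + 2 * r := by omega
    rw [hi] at hbig ⊢
    rw [hr] at hd hn
    obtain ⟨c, hc⟩ := even_final (by omega) hn F hd ((card_Mfam_even hnk).trans hbig)
    refine ⟨c, 1, ?_⟩
    intro σ hσ
    rw [mem_image]
    refine ⟨c⁻¹ * σ, ?_, by simp⟩
    rw [mem_Mfam_even hnk, ← pdist_eq_support]
    exact hc σ hσ
  · have hi : idx (n - k) = r := by
      unfold idx; rw [if_neg (by omega)]; omega
    have hnk : n = k + 2 * r + 1 := by omega
    rw [hi] at hbig ⊢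
    rw [hr] at hd hn
    obtain ⟨c, z, hc⟩ := odd_final (by omega) hn F hd ((card_Mfam_odd hnk).trans hbig)
    set w : Fin n := ⟨k + 2 * r, by omega⟩ with hw
    refine ⟨c * swap z w, swap z w, ?_⟩
    intro σ hσ
    rw [mem_image]
    refine ⟨swap z w * (c⁻¹ * σ) * swap z w, ?_, ?_⟩
    · rw [mem_Mfam_odd hnk w rfl]
      have h1 := hc σ hσ
      rw [offcard_translate] at h1
      refine le_trans (le_of_eq ?_) h1
      -- conjugation
      unfold offcard
      refine card_bij (fun x _ => swap z w x) ?_ ?_ ?_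
      · intro x hx
        rw [mem_filter] at hx ⊢
        refine ⟨mem_univ _, ?_, ?_⟩
        · intro h
          apply hx.2.1
          have := congrArg (swap z w) h
          rw [swap_apply_self, swap_apply_left] at this
          exact this
        · intro h
          apply hx.2.2
          rw [Perm.mul_apply, Perm.mul_apply, h]
          simp
      · intro a _ b _ h
        exact (swap z w).injective h
      · intro x hx
        rw [mem_filter] at hx
        refine ⟨swap z w x, ?_, swap_apply_self _ _ _⟩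
        rw [mem_filter]
        refine ⟨mem_univ _, ?_, ?_⟩
        · intro h
          apply hx.2.1
          have := congrArg (swap z w) h
          rw [swap_apply_self, swap_apply_right] at this
          exact this
        · intro h
          apply hx.2.2
          rw [Perm.mul_apply, swap_apply_self, Perm.mul_apply, Perm.one_apply] at h
          have := (swap z w).injective h
          rw [this]
          rfl
    · have hs : swap z w * swap z w = 1 := swap_mul_self z w
      calc c * swap z w * (swap z w * (c⁻¹ * σ) * swap z w) * swap z w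
          = c * (swap z w * swap z w) * (c⁻¹ * σ) * (swap z w * swap z w) := by group
        _ = σ := by rw [hs]; group

/-- distance two: at most two permutations, in a translate of `M_0` -/
theorem stab_two {n k : ℕ} (hk : n = k + 2) (F : Finset (Perm (Fin n)))
    (hd : ∀ σ ∈ F, ∀ τ ∈ F, pdist σ τ ≤ 2) :
    ∃ σ τ : Perm (Fin n), F ⊆ (Mfam n k 0).image (fun π => σ * π * τ) := by
  classical
  by_cases hne : F.Nonempty
  swap
  · rw [not_nonempty_iff_eq_empty.1 hne]
    exact ⟨1, 1, empty_subset _⟩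
  obtain ⟨σ, hσ⟩ := hne
  have h1 : (1 : Perm (Fin n)) ∈ Mfam n k 0 := one_mem_Mfam (by omega)
  by_cases hall : ∀ τ ∈ F, τ = σ
  · refine ⟨σ, 1, ?_⟩
    intro τ hτ
    rw [mem_image]
    exact ⟨1, h1, by rw [hall τ hτ]; simp⟩
  push Not at hall
  obtain ⟨τ, hτ, hne⟩ := hall
  -- elements at distance two differ by a transposition
  have htr : ∀ α ∈ F, ∀ β ∈ F, α ≠ β → (α⁻¹ * β).IsSwap := by
    intro α hα β hβ hαβ
    rw [← Perm.card_support_eq_two, ← pdist_eq_support]
    have h2 := hd β hβ α hα
    have h3 := pdist_ne_one β α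
    have h4 : pdist β α ≠ 0 := fun h => hαβ (pdist_eq_zero h).symm
    omega
  have hF : ∀ ρ ∈ F, ρ = σ ∨ ρ = τ := by
    intro ρ hρ
    by_contra hcon
    push Not at hcon
    have s1 := (htr σ hσ ρ hρ (Ne.symm hcon.1)).sign_eq
    have s2 := (htr ρ hρ τ hτ hcon.2).sign_eq
    have s3 := (htr σ hσ τ hτ (Ne.symm hne)).sign_eq
    have s4 : σ⁻¹ * τ = (σ⁻¹ * ρ) * (ρ⁻¹ * τ) := by group
    rw [s4, Perm.sign_mul, s1, s2] at s3
    exact absurd s3 (by decide)
  obtain ⟨a, b, hab, hsw⟩ := htr σ hσ τ hτ (Ne.symm hne)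
  set x : Fin n := ⟨k, by omega⟩ with hx
  set y : Fin n := ⟨k + 1, by omega⟩ with hy
  have hxy : x ≠ y := by
    rw [hx, hy, ne_eq, Fin.mk.injEq]; omega
  set β : Perm (Fin n) := swap (swap a x b) y * swap a x with hβ
  have hβa : β a = x := by
    rw [hβ, Perm.mul_apply, swap_apply_left, swap_apply_of_ne_of_ne]
    · intro h
      have := congrArg (swap a x) h
      rw [swap_apply_self, swap_apply_right] at this
      exact hab this
    · exact hxy
  have hβb : β b = y := by
    rw [hβ, Perm.mul_apply, swap_apply_left]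
  have hswap : swap x y ∈ Mfam n k 0 := by
    rw [Mfam, mem_filter]
    refine ⟨mem_univ _, ?_⟩
    have h1 : (univ.filter (fun j : Fin n => j.val < k + 2 * 0 ∧ (swap x y) j = j)) =
        univ.filter (fun j : Fin n => j.val < k) := by
      ext j
      simp only [mem_filter, mem_univ, true_and, mul_zero, add_zero, and_iff_left_iff_imp]
      intro hj
      apply swap_apply_of_ne_of_ne
      · intro h; rw [h, hx] at hj; exact absurd hj (by simp)
      · intro h; rw [h, hy] at hj; simp at hj
    rw [h1, Fin.card_filter_val_lt]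
    omega
  refine ⟨σ * β⁻¹, β, ?_⟩
  intro ρ hρ
  rw [mem_image]
  rcases hF ρ hρ with rfl | rfl
  · exact ⟨1, h1, by simp⟩
  · refine ⟨swap x y, hswap, ?_⟩
    have e1 : β * swap a b = swap x y * β := by
      rw [mul_swap_eq_swap_mul, hβa, hβb]
    calc σ * β⁻¹ * swap x y * β = σ * β⁻¹ * (swap x y * β) := by group
      _ = σ * β⁻¹ * (β * swap a b) := by rw [e1]
      _ = σ * swap a b := by group
      _ = ρ := by rw [← hsw]; group

theorem stab_all {n k : ℕ} (hkn : k ≤ n) (hn : (500 * (n - k)) ^ 2 ≤ n)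
    (F : Finset (Perm (Fin n)))
    (hF : ∀ σ ∈ F, ∀ τ ∈ F, σ ≠ τ → k ≤ (univ.filter (fun j : Fin n => σ j = τ j)).card)
    (hbig : (Mfam n k (idx (n - k))).card ≤ 2 * F.card) :
    ∃ σ τ : Perm (Fin n), F ⊆ (Mfam n k (idx (n - k))).image (fun π => σ * π * τ) := by
  classical
  have hd := pdist_of_agree hF
  rcases (by omega : n - k ≤ 1 ∨ n - k = 2 ∨ 3 ≤ n - k) with h | h | h
  · have hi : idx (n - k) = 0 := by
      unfold idx; rw [if_neg (by omega)]; omega
    rw [hi]
    by_cases hne : F.Nonempty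
    swap
    · rw [not_nonempty_iff_eq_empty.1 hne]
      exact ⟨1, 1, empty_subset _⟩
    obtain ⟨σ, hσ⟩ := hne
    refine ⟨σ, 1, ?_⟩
    intro τ hτ
    rw [mem_image]
    refine ⟨1, one_mem_Mfam (by omega), ?_⟩
    rw [pdist_le_one ((hd τ hτ σ hσ).trans h)]; simp
  · have hi : idx (n - k) = 0 := by
      unfold idx; rw [if_pos h]
    rw [hi]
    rw [h] at hd
    exact stab_two (by omega) F hd
  · exact stab_big hkn h hn F hF hbig

theorem bound_all {n k : ℕ} (hkn : k ≤ n) (hn : (500 * (n - k)) ^ 2 ≤ n)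
    (F : Finset (Perm (Fin n)))
    (hF : ∀ σ ∈ F, ∀ τ ∈ F, σ ≠ τ → k ≤ (univ.filter (fun j : Fin n => σ j = τ j)).card) :
    F.card ≤ (Mfam n k (idx (n - k))).card := by
  classical
  by_contra hcon
  push Not at hcon
  obtain ⟨σ, τ, h⟩ := stab_all hkn hn F hF (by omega)
  have := (card_le_card h).trans card_image_le
  omega

end Pool.Agent.H71.KInt
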